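import Pool.Agent.H256R2.SC.Defs

set_option autoImplicit false
set_option linter.unusedSectionVars false

/-! # Splitting an assignment `D` into `(D', s)`: `D'` avoids the colour `k`, `s` = indices coloured `k` -/

namespace Pool.Agent.H256R2.SC

open Finset

variable {n : ℕ} {κ : Type} [Fintype κ] [DecidableEq κ]

/-- recolour `s` with `k` -/
def ins (k : κ) (s : Finset (Fin n)) (D : Col n κ) : Col n κ := fun i => if i ∈ s then some k else D i

/-- indices without colour -/
def free (D : Col n κ) : Finset (Fin n) := univ.filter (fun i => D i = none)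

/-- indices with a colour -/
def supp (D : Col n κ) : Finset (Fin n) := univ.filter (fun i => D i ≠ none)

/-- assignments avoiding `k` -/
def avoid (n : ℕ) (k : κ) : Finset (Col n κ) := univ.filter (fun D => ∀ i, D i ≠ some k)

lemma mem_avoid {k : κ} {D : Col n κ} : D ∈ avoid n k ↔ ∀ i, D i ≠ some k := by
  simp [avoid]

lemma mem_fib {D : Col n κ} {k : κ} {i : Fin n} : i ∈ fib D k ↔ D i = some k := by
  simp [fib]

lemma mem_free {D : Col n κ} {i : Fin n} : i ∈ free D ↔ D i = none := by
  simp [free]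

lemma mem_supp {D : Col n κ} {i : Fin n} : i ∈ supp D ↔ D i ≠ none := by
  simp [supp]

lemma er_avoid (k : κ) (D : Col n κ) : er k D ∈ avoid n k := by
  rw [mem_avoid]
  intro i
  unfold er
  by_cases h : D i = some k
  · simp [h]
  · simp [h]

lemma fib_eq_empty {k : κ} {D : Col n κ} (hD : D ∈ avoid n k) : fib D k = ∅ := by
  rw [mem_avoid] at hD
  unfold fib
  rw [Finset.filter_eq_empty_iff]
  intro i _
  exact hD i

lemma er_ins {k : κ} {s : Finset (Fin n)} {D : Col n κ} (hD : D ∈ avoid n k) (hs : s ⊆ free D) :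
    er k (ins k s D) = D := by
  funext i
  unfold er ins
  by_cases hi : i ∈ s
  · have := mem_free.mp (hs hi)
    simp [hi, this]
  · rw [if_neg hi, if_neg (mem_avoid.mp hD i)]

lemma fib_ins_self {k : κ} {s : Finset (Fin n)} {D : Col n κ} (hD : D ∈ avoid n k) :
    fib (ins k s D) k = s := by
  ext i
  rw [mem_fib]
  unfold ins
  by_cases hi : i ∈ s
  · simp [hi]
  · rw [if_neg hi]
    exact ⟨fun h => absurd h (mem_avoid.mp hD i), fun h => absurd h hi⟩

lemma fib_ins_ne {k l : κ} (hl : l ≠ k) {s : Finset (Fin n)} {D : Col n κ} (hs : s ⊆ free D) :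
    fib (ins k s D) l = fib D l := by
  ext i
  rw [mem_fib, mem_fib]
  unfold ins
  by_cases hi : i ∈ s
  · have := mem_free.mp (hs hi)
    rw [if_pos hi, this]
    constructor
    · intro h
      exact absurd (Option.some.inj h).symm hl
    · intro h
      exact absurd h (by simp)
  · rw [if_neg hi]

lemma ins_er (k : κ) (D : Col n κ) : ins k (fib D k) (er k D) = D := by
  funext i
  unfold ins er
  by_cases hi : D i = some k
  · rw [if_pos (mem_fib.mpr hi), hi]
  · rw [if_neg (fun h => hi (mem_fib.mp h)), if_neg hi]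

lemma fib_subset_free_er (k : κ) (D : Col n κ) : fib D k ⊆ free (er k D) := by
  intro i hi
  rw [mem_free]
  unfold er
  rw [if_pos (mem_fib.mp hi)]

/-- the split of a sum over all assignments -/
theorem sum_split (k : κ) (F : Col n κ → ℝ) :
    ∑ D, F D = ∑ D ∈ avoid n k, ∑ s ∈ (free D).powerset, F (ins k s D) := by
  classical
  rw [Finset.sum_sigma']
  symm
  refine Finset.sum_bij' (fun x _ => ins k x.2 x.1) (fun D _ => ⟨er k D, fib D k⟩) ?_ ?_ ?_ ?_ ?_
  · intro x _
    exact Finset.mem_univ _
  · intro D _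
    rw [Finset.mem_sigma]
    exact ⟨er_avoid k D, Finset.mem_powerset.mpr (fib_subset_free_er k D)⟩
  · rintro ⟨D, s⟩ hx
    rw [Finset.mem_sigma, Finset.mem_powerset] at hx
    simp only at hx
    simp only [er_ins hx.1 hx.2, fib_ins_self hx.1]
  · intro D _
    exact ins_er k D
  · intro x _
    rfl

/-- the fibres of `er k` -/
theorem sum_fiber (k : κ) (D' : Col n κ) (hD' : D' ∈ avoid n k) (F : Col n κ → ℝ) :
    ∑ D with er k D = D', F D = ∑ s ∈ (free D').powerset, F (ins k s D') := by
  classical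
  symm
  refine Finset.sum_bij' (fun s _ => ins k s D') (fun D _ => fib D k) ?_ ?_ ?_ ?_ ?_
  · intro s hs
    rw [Finset.mem_powerset] at hs
    rw [Finset.mem_filter]
    exact ⟨Finset.mem_univ _, er_ins hD' hs⟩
  · intro D hD
    rw [Finset.mem_filter] at hD
    rw [Finset.mem_powerset, ← hD.2]
    exact fib_subset_free_er k D
  · intro s _
    exact fib_ins_self hD'
  · intro D hD
    rw [Finset.mem_filter] at hD
    rw [← hD.2]
    exact ins_er k D
  · intro s _
    rfl

theorem sum_fiber_empty (k : κ) (D' : Col n κ) (hD' : D' ∉ avoid n k) (F : Col n κ → ℝ) :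
    ∑ D with er k D = D', F D = 0 := by
  rw [Finset.sum_eq_zero]
  intro D hD
  rw [Finset.mem_filter] at hD
  exact absurd (hD.2 ▸ er_avoid k D) hD'

theorem prod_nu1 (p : Fin n → ℝ) (D : Col n κ) : ∏ i, nu1 (p i) (D i) = ∏ i ∈ supp D, p i := by
  unfold supp
  rw [Finset.prod_filter]
  apply Finset.prod_congr rfl
  intro i _
  cases h : D i with
  | none => simp [nu1]
  | some k => simp [nu1]

lemma supp_ins {k : κ} {s : Finset (Fin n)} {D : Col n κ} :
    supp (ins k s D) = s ∪ supp D := by
  ext i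
  rw [Finset.mem_union, mem_supp, mem_supp]
  unfold ins
  by_cases hi : i ∈ s
  · simp [hi]
  · simp [hi]

lemma disj_supp {s : Finset (Fin n)} {D : Col n κ} (hs : s ⊆ free D) : Disjoint s (supp D) := by
  rw [Finset.disjoint_left]
  intro i hi h2
  exact (mem_supp.mp h2) (mem_free.mp (hs hi))

theorem nu_ins (g : Fin n → ℝ) {k : κ} {s : Finset (Fin n)} {D : Col n κ} (hs : s ⊆ free D) :
    nu g (ins k s D) = (∏ i ∈ s, g i) * nu g D := by
  unfold nu
  rw [prod_nu1, prod_nu1, supp_ins, Finset.prod_union (disj_supp hs)]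

theorem qq_ins (p : Fin n → ℝ) {k : κ} {s : Finset (Fin n)} {D : Col n κ} (hs : s ⊆ free D) :
    qq p (ins k s D) = (∏ i ∈ s, p i) * qq p D := by
  unfold qq
  rw [prod_nu1, prod_nu1, supp_ins, Finset.prod_union (disj_supp hs)]

/-- product over the colours different from `k` -/
theorem yy_ins (h : Finset (Fin n) → ℝ) {k : κ} {s : Finset (Fin n)} {D : Col n κ}
    (hD : D ∈ avoid n k) (hs : s ⊆ free D) :
    yy h (ins k s D) = al h s * yy h D := by
  unfold yy
  rw [← Finset.mul_prod_erase univ _ (Finset.mem_univ k),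
    ← Finset.mul_prod_erase univ (fun l => al h (fib D l)) (Finset.mem_univ k)]
  rw [fib_ins_self hD, fib_eq_empty hD]
  have h1 : al h (∅ : Finset (Fin n)) = 1 := by simp [al]
  rw [h1, one_mul]
  congr 1
  apply Finset.prod_congr rfl
  intro l hl
  rw [fib_ins_ne (Finset.ne_of_mem_erase hl) hs]

/-- general version: products of arbitrary functions of the colour classes -/
theorem prod_fib_ins (al' : κ → Finset (Fin n) → ℝ) {k : κ} {s : Finset (Fin n)} {D : Col n κ}
    (hD : D ∈ avoid n k) (hs : s ⊆ free D) :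
    ∏ l, al' l (fib (ins k s D) l) = al' k s * ∏ l ∈ univ.erase k, al' l (fib D l) := by
  rw [← Finset.mul_prod_erase univ _ (Finset.mem_univ k), fib_ins_self hD]
  congr 1
  apply Finset.prod_congr rfl
  intro l hl
  rw [fib_ins_ne (Finset.ne_of_mem_erase hl) hs]

theorem qq_eq_prod_fib (p : Fin n → ℝ) (D : Col n κ) :
    qq p D = ∏ k, ∏ i ∈ fib D k, p i := by
  unfold qq
  rw [prod_nu1]
  have hsupp : supp D = univ.biUnion (fun k => fib D k) := by
    ext i
    rw [mem_supp, Finset.mem_biUnion]
    constructor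
    · intro h
      obtain ⟨k, hk⟩ := Option.ne_none_iff_exists'.mp h
      exact ⟨k, Finset.mem_univ _, mem_fib.mpr hk⟩
    · rintro ⟨k, _, hk⟩
      rw [mem_fib.mp hk]
      simp
  rw [hsupp, Finset.prod_biUnion]
  intro k _ l _ hkl
  change Disjoint _ _
  rw [Finset.disjoint_left]
  intro i hi hj
  exact hkl (Option.some.inj ((mem_fib.mp hi).symm.trans (mem_fib.mp hj)))

end Pool.Agent.H256R2.SC
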