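import Pool.Agent.H256R2.SC.Defs
import Pool.Agent.H256R2.SC.A

set_option autoImplicit false

/-! # Task C: the event that the colour `k` does not occur -/

namespace Pool.Agent.H256R2.SC

open Finset

variable {n : ℕ} {κ : Type} [Fintype κ] [DecidableEq κ]

theorem psi_er (g : Fin n → ℝ) (k : κ) (x : Col n κ) (hx : ∀ i, x i ≠ some k) (D : Col n κ) :
    psi g D x = (∏ i ∈ fib D k, (-(g i))) * psi g (er k D) x := by
  unfold psi fib er
  rw [Finset.prod_filter, ← Finset.prod_mul_distrib]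
  refine Finset.prod_congr rfl fun i _ => ?_
  by_cases h : D i = some k
  · rw [if_pos h, if_pos h, h]
    simp only [psi1]
    rw [if_neg (hx i)]
    ring
  · rw [if_neg h, if_neg h, one_mul]

theorem VV_red (g : Fin n → ℝ) (y : Col n κ → ℝ) (k : κ) (x : Col n κ) (hx : ∀ i, x i ≠ some k) :
    VV g y x = VV g (red g y k) x := by
  unfold VV red
  have h1 : ∀ D' : Col n κ, (∑ D with er k D = D', y D * ∏ i ∈ fib D k, (-(g i))) * psi g D' x =
      ∑ D with er k D = D', y D * psi g D x := by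
    intro D'
    rw [Finset.sum_mul]
    refine Finset.sum_congr rfl fun D hD => ?_
    rw [Finset.mem_filter] at hD
    rw [psi_er g k x hx D, hD.2]
    ring
  simp_rw [h1]
  rw [Finset.sum_fiberwise]

theorem C_local_upper (g : ℝ) (Y : Option κ → ℝ) :
    ∑ c, wt g c * (∑ a, psi1 g a c * Y a) ^ 2 ≤ ∑ a, nu1 g a * (Y a) ^ 2 := by
  set S : ℝ := ∑ k : κ, Y (some k) with hS
  set A : ℝ := Y none - g * S with hA
  have h0 : (∑ a, psi1 g a none * Y a) = A := by
    rw [Fintype.sum_option]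
    simp only [psi1, one_mul, reduceCtorEq, if_false, zero_sub]
    rw [hA, hS, Finset.mul_sum, sub_eq_add_neg, ← Finset.sum_neg_distrib]
    congr 1
    refine Finset.sum_congr rfl fun k _ => ?_
    ring
  have h1 : ∀ l : κ, (∑ a, psi1 g a (some l) * Y a) = A + Y (some l) := by
    intro l
    rw [Fintype.sum_option]
    simp only [psi1, one_mul, Option.some.injEq]
    have h2 : ∑ k : κ, ((if l = k then (1 : ℝ) else 0) - g) * Y (some k) = Y (some l) - g * S := by
      rw [hS, Finset.mul_sum]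
      simp_rw [sub_mul]
      rw [Finset.sum_sub_distrib]
      congr 1
      simp
    rw [h2, hA]
    ring
  rw [Fintype.sum_option (fun c => wt g c * (∑ a, psi1 g a c * Y a) ^ 2),
    Fintype.sum_option (fun a => nu1 g a * (Y a) ^ 2), h0]
  simp_rw [h1]
  simp only [wt, nu1]
  have h3 : ∑ l : κ, g * (A + Y (some l)) ^ 2 =
      (Fintype.card κ : ℝ) * g * A ^ 2 + 2 * g * A * S + g * ∑ l : κ, (Y (some l)) ^ 2 := by
    have : ∀ l : κ, g * (A + Y (some l)) ^ 2 =
        g * A ^ 2 + 2 * g * A * Y (some l) + g * (Y (some l)) ^ 2 := by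
      intro l; ring
    simp_rw [this]
    rw [Finset.sum_add_distrib, Finset.sum_add_distrib, Finset.sum_const, Finset.card_univ,
      nsmul_eq_mul, ← Finset.mul_sum, ← Finset.mul_sum, ← hS]
    ring
  rw [h3, ← Finset.mul_sum]
  have h4 : (1 - (Fintype.card κ : ℝ) * g) * A ^ 2 + ((Fintype.card κ : ℝ) * g * A ^ 2 +
      2 * g * A * S + g * ∑ l : κ, (Y (some l)) ^ 2) =
      1 * Y none ^ 2 + g * ∑ l : κ, (Y (some l)) ^ 2 - (g * S) ^ 2 := by
    rw [hA]; ring
  rw [h4]
  nlinarith [sq_nonneg (g * S)]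

theorem rough_bound_of (g : Fin n → ℝ) (hw : ∀ i (c : Option κ), 0 ≤ wt (g i) c)
    (hT : ∀ y : Col n κ → ℝ, EE g (fun x => (∏ i : Fin n, (fun _ _ => (1 : ℝ)) i (x i)) *
      (VV g y x) ^ 2) ≤ ∑ D, (∏ i, nu1 (g i) (D i)) * (y D) ^ 2)
    (y : Col n κ → ℝ) (k : κ) :
    EE g (fun x => (if ∀ i, x i ≠ some k then 1 else 0) * (VV g y x) ^ 2) ≤
      ∑ D, nu g D * (red g y k D) ^ 2 := by
  refine le_trans ?_ (hT (red g y k))
  unfold EE
  refine Finset.sum_le_sum fun x _ => ?_
  refine mul_le_mul_of_nonneg_left ?_ (Finset.prod_nonneg fun i _ => hw i (x i))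
  beta_reduce
  by_cases hx : ∀ i, x i ≠ some k
  · rw [if_pos hx, VV_red g y k x hx]
    simp
  · rw [if_neg hx, zero_mul]
    simp only [Finset.prod_const_one, one_mul]
    positivity

/-- uses tensor_upper, local_upper, VV_red -/
theorem rough_bound (g : Fin n → ℝ) (hg : ∀ i, 0 ≤ g i) (hw : ∀ i (c : Option κ), 0 ≤ wt (g i) c)
    (y : Col n κ → ℝ) (k : κ) :
    EE g (fun x => (if ∀ i, x i ≠ some k then 1 else 0) * (VV g y x) ^ 2) ≤
      ∑ D, nu g D * (red g y k D) ^ 2 := by
  refine rough_bound_of g hw (fun y' => ?_) y k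
  refine tensor_upper g (fun _ _ => 1) (fun i c => nu1 (g i) c) hw (fun _ _ => zero_le_one) ?_ ?_ y'
  · intro i c
    cases c
    · simp [nu1]
    · simpa [nu1] using hg i
  · intro i Y
    simpa using C_local_upper (g i) Y

end Pool.Agent.H256R2.SC
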