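import Pool.Agent.H256R2.SC.Defs

set_option autoImplicit false

/-! # Task F: the weighted sum (helper524) -/

namespace Pool.Agent.H256R2.SC

open Finset

variable {n : ℕ} {κ : Type} [Fintype κ] [DecidableEq κ]

namespace TaskF

theorem al_sq_le {h : Finset (Fin n) → ℝ} (h0 : ∀ s, 0 ≤ h s) (h1 : ∀ s, h s ≤ 1)
    (s : Finset (Fin n)) : (al h s) ^ 2 ≤ 1 := by
  unfold al
  split
  · norm_num
  · have e : (-((-1 : ℝ) ^ s.card * h s)) ^ 2 = (h s) ^ 2 := by
      rw [neg_sq, mul_pow, ← pow_mul, mul_comm s.card 2, pow_mul]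
      norm_num
    rw [e]
    nlinarith [h0 s, h1 s]

omit [Fintype κ] in
theorem mem_fib {k : κ} {D : Col n κ} {i : Fin n} : i ∈ fib D k ↔ D i = some k := by
  unfold fib
  rw [mem_filter]
  simp

omit [Fintype κ] in
theorem fib_er_self (k : κ) (D : Col n κ) : fib (er k D) k = ∅ := by
  ext i
  rw [mem_fib]
  unfold er
  by_cases h : D i = some k <;> simp [h]

omit [Fintype κ] in
theorem fib_er_ne {k l : κ} (hl : l ≠ k) (D : Col n κ) : fib (er k D) l = fib D l := by
  ext i
  rw [mem_fib, mem_fib]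
  unfold er
  by_cases h : D i = some k
  · have : k ≠ l := fun e => hl e.symm
    simp [h, this]
  · simp [h]

theorem yy_sq_le {h : Finset (Fin n) → ℝ} (h0 : ∀ s, 0 ≤ h s) (h1 : ∀ s, h s ≤ 1) (k : κ)
    (D : Col n κ) : (yy h D) ^ 2 ≤ (yy h (er k D)) ^ 2 := by
  unfold yy
  rw [← prod_pow, ← prod_pow]
  apply prod_le_prod
  · intro l _
    positivity
  · intro l _
    by_cases hl : l = k
    · subst hl
      rw [fib_er_self]
      simpa [al] using al_sq_le h0 h1 (fib D l)
    · rw [fib_er_ne hl]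

omit [Fintype κ] in
theorem inj (k : κ) : Function.Injective (fun D : Col n κ => (er k D, fib D k)) := by
  intro D E hDE
  simp only [Prod.mk.injEq] at hDE
  obtain ⟨h1, h2⟩ := hDE
  funext i
  by_cases hi : i ∈ fib D k
  · have hi2 : i ∈ fib E k := h2 ▸ hi
    rw [mem_fib] at hi hi2
    rw [hi, hi2]
  · have hi2 : i ∉ fib E k := h2 ▸ hi
    rw [mem_fib] at hi hi2
    have := congrFun h1 i
    simpa [er, hi, hi2] using this

end TaskF

open TaskF in
theorem weighted_sum {p g : Fin n → ℝ} {h : Finset (Fin n) → ℝ} {z K : ℝ} (H : Hyp p g h z K)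
    (t : ℝ) (ht : 0 ≤ t) (k₀ : κ) :
    ∑ D : Col n κ, (∏ i, bet (g i) t k₀ (D i)) * (yy h D) ^ 2 ≤
      Real.exp ((2 + 6 * t) * ∑ i, g i) * Zs κ g h := by
  have g0 : ∀ i, 0 ≤ g i := fun i => (H.g0 i).le
  set P : ℝ := ∏ i, (1 + 3 * t * g i) with hP
  have hP0 : 0 ≤ P := prod_nonneg fun i _ => by have := g0 i; positivity
  let W : Finset (Fin n) → ℝ := fun s => ∏ i ∈ s, ((1 + 3 * t) * g i)
  have hW0 : ∀ s, 0 ≤ W s := fun s => prod_nonneg fun i _ => by have := g0 i; positivity
  let F : Col n κ → ℝ := fun D => (yy h D) ^ 2 * nu g D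
  have hnu0 : ∀ D : Col n κ, 0 ≤ nu g D := by
    intro D
    refine prod_nonneg fun i _ => ?_
    unfold nu1
    split
    · norm_num
    · exact g0 i
  have hF0 : ∀ D, 0 ≤ F D := fun D => mul_nonneg (sq_nonneg _) (hnu0 D)
  -- termwise bound
  have hterm : ∀ D : Col n κ, (∏ i, bet (g i) t k₀ (D i)) * (yy h D) ^ 2 ≤
      P * (F (er k₀ D) * W (fib D k₀)) := by
    intro D
    have hb : ∏ i, bet (g i) t k₀ (D i) ≤ P * (nu g (er k₀ D) * W (fib D k₀)) := by
      have hWW : W (fib D k₀) = ∏ i, (if D i = some k₀ then (1 + 3 * t) * g i else 1) := by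
        simp only [W, fib]
        rw [prod_filter]
      rw [hWW, hP]
      unfold nu
      rw [← prod_mul_distrib, ← prod_mul_distrib]
      apply prod_le_prod
      · intro i _
        have := g0 i
        unfold bet
        split
        · positivity
        · split <;> positivity
      · intro i _
        have hg := g0 i
        have h3 : 0 ≤ 3 * t * g i := by positivity
        cases hD : D i with
        | none => simp [bet, er, hD, nu1]
        | some l =>
          by_cases hl : l = k₀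
          · subst hl
            simp only [bet, if_true, er, hD, nu1]
            have h4 : 0 ≤ (1 + 3 * t) * g i := by positivity
            nlinarith
          · have hl' : ¬ (some l = some k₀) := fun e => hl (Option.some.inj e)
            simp only [bet, if_neg hl, er, hD, if_neg hl', nu1]
            nlinarith
    have hbn : 0 ≤ P * (nu g (er k₀ D) * W (fib D k₀)) :=
      mul_nonneg hP0 (mul_nonneg (hnu0 _) (hW0 _))
    calc (∏ i, bet (g i) t k₀ (D i)) * (yy h D) ^ 2
        ≤ (P * (nu g (er k₀ D) * W (fib D k₀))) * (yy h (er k₀ D)) ^ 2 :=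
          mul_le_mul hb (yy_sq_le H.h0 H.h1 k₀ D) (sq_nonneg _) hbn
      _ = P * (F (er k₀ D) * W (fib D k₀)) := by simp only [F]; ring
  -- sum
  have hsum : ∑ D : Col n κ, F (er k₀ D) * W (fib D k₀) ≤ (∑ D : Col n κ, F D) * ∑ s, W s := by
    rw [sum_mul_sum, ← sum_product']
    have e : ∑ D : Col n κ, F (er k₀ D) * W (fib D k₀) =
        ∑ x ∈ univ.image (fun D : Col n κ => (er k₀ D, fib D k₀)), F x.1 * W x.2 := by
      rw [sum_image]
      intro a _ b _ hab
      exact inj k₀ hab
    rw [e]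
    apply sum_le_sum_of_subset_of_nonneg
    · intro x _
      simp
    · intro x _ _
      exact mul_nonneg (hF0 _) (hW0 _)
  have hWs : ∑ s, W s = ∏ i, (1 + (1 + 3 * t) * g i) := by
    rw [prod_one_add]
    simp [W]
  have e1 : P ≤ Real.exp (3 * t * ∑ i, g i) := by
    rw [mul_sum, Real.exp_sum]
    apply prod_le_prod
    · intro i _
      have := g0 i
      positivity
    · intro i _
      have := Real.add_one_le_exp (3 * t * g i)
      linarith
  have e2 : ∏ i, (1 + (1 + 3 * t) * g i) ≤ Real.exp ((1 + 3 * t) * ∑ i, g i) := by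
    rw [mul_sum, Real.exp_sum]
    apply prod_le_prod
    · intro i _
      have := g0 i
      positivity
    · intro i _
      have := Real.add_one_le_exp ((1 + 3 * t) * g i)
      linarith
  have hZ0 : 0 ≤ Zs κ g h := sum_nonneg fun D _ => hF0 D
  have hG0 : 0 ≤ ∑ i, g i := sum_nonneg fun i _ => g0 i
  calc ∑ D : Col n κ, (∏ i, bet (g i) t k₀ (D i)) * (yy h D) ^ 2
      ≤ ∑ D : Col n κ, P * (F (er k₀ D) * W (fib D k₀)) := sum_le_sum fun D _ => hterm D
    _ = P * ∑ D : Col n κ, F (er k₀ D) * W (fib D k₀) := by rw [mul_sum]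
    _ ≤ P * (Zs κ g h * ∏ i, (1 + (1 + 3 * t) * g i)) := by
        rw [← hWs]
        exact mul_le_mul_of_nonneg_left hsum hP0
    _ ≤ Real.exp (3 * t * ∑ i, g i) * (Zs κ g h * Real.exp ((1 + 3 * t) * ∑ i, g i)) := by
        apply mul_le_mul e1 _ _ (Real.exp_pos _).le
        · exact mul_le_mul_of_nonneg_left e2 hZ0
        · apply mul_nonneg hZ0
          refine prod_nonneg fun i _ => ?_
          have := g0 i
          positivity
    _ = Real.exp ((1 + 6 * t) * ∑ i, g i) * Zs κ g h := by
        have : Real.exp ((1 + 6 * t) * ∑ i, g i) =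
            Real.exp (3 * t * ∑ i, g i) * Real.exp ((1 + 3 * t) * ∑ i, g i) := by
          rw [← Real.exp_add]
          ring_nf
        rw [this]
        ring
    _ ≤ Real.exp ((2 + 6 * t) * ∑ i, g i) * Zs κ g h := by
        apply mul_le_mul_of_nonneg_right _ hZ0
        apply Real.exp_le_exp.mpr
        nlinarith

end Pool.Agent.H256R2.SC
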