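import Pool.Agent.H256R2.SC.V
import Pool.Agent.H256R2.SC.R
import Pool.Agent.H256R2.SC.G1

set_option autoImplicit false

/-! # Large gaps between primes: final theorems -/

namespace Pool.Agent.H256R2.SC

theorem composite_run : ∃ c : ℝ, 0 < c ∧ ∃ X₀ : ℝ, ∀ X : ℝ, X₀ ≤ X →
    ∃ x : ℕ, Real.sqrt X ≤ x ∧ (x : ℝ) + c * ff X ≤ X ∧
      ∀ k : ℕ, 1 ≤ k → (k : ℝ) ≤ c * ff X → ¬ (x + k).Prime :=
  LG.composite_run_of covering survivors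

theorem large_gaps : ∃ c : ℝ, 0 < c ∧ ∃ X₀ : ℝ, ∀ X : ℝ, X₀ ≤ X →
    ∃ m : ℕ, (Nat.nth Nat.Prime (m + 1) : ℝ) ≤ X ∧
      c * ff X ≤ (Nat.nth Nat.Prime (m + 1) : ℝ) - Nat.nth Nat.Prime m :=
  LG.large_gaps_of composite_run

end Pool.Agent.H256R2.SC
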