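import Pool.Agent.Helper256.KM.Mertens

set_option autoImplicit false

namespace Pool.Agent.H256R2.SC.G3

open Finset

/-- number of members of a residue class in an interval -/
lemma class_count (m0 v : ℤ) (L r : ℕ) (hr : 0 < r) :
    |((((Finset.Ico m0 (m0 + L)).filter (fun x => (r : ℤ) ∣ x - v)).card : ℝ)) - (L : ℝ) / r| ≤ 1 := by
  have h0 : (Finset.Ico m0 (m0 + L)).filter (fun x => (r : ℤ) ∣ x - v) =
      (Finset.Ico m0 (m0 + L)).filter (fun x => x ≡ v [ZMOD (r : ℤ)]) := by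
    apply Finset.filter_congr
    intro x _
    rw [Int.modEq_comm, Int.modEq_iff_dvd]
  have h1 := Int.Ico_filter_modEq_card m0 (m0 + L) (r := (r : ℤ)) (by exact_mod_cast hr) v
  rw [← h0] at h1
  set Nn := ((Finset.Ico m0 (m0 + L)).filter (fun x => (r : ℤ) ∣ x - v)).card with hNn
  have hrq : (0 : ℚ) < (r : ℚ) := by exact_mod_cast hr
  have h2 : ((m0 + (L : ℤ) : ℤ) - (v : ℤ) : ℚ) / ((r : ℤ) : ℚ) = ((m0 : ℚ) - v) / r + L / r := by
    push_cast
    ring
  have h3 : (((m0 : ℤ) : ℚ) - (v : ℤ)) / ((r : ℤ) : ℚ) = ((m0 : ℚ) - v) / r := by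
    push_cast; ring
  rw [h2, h3] at h1
  set A : ℚ := ((m0 : ℚ) - v) / r with hA
  set B : ℚ := (L : ℚ) / r with hB
  have hB0 : 0 ≤ B := by positivity
  have hmono : ⌈A⌉ ≤ ⌈A + B⌉ := Int.ceil_mono (by linarith)
  rw [max_eq_left (by linarith)] at h1
  have e1 : ((Nn : ℤ) : ℚ) = ((⌈A + B⌉ - ⌈A⌉ : ℤ) : ℚ) := by rw [h1]
  push_cast at e1
  have u1 := Int.le_ceil (A + B)
  have u2 := Int.ceil_lt_add_one (A + B)
  have u3 := Int.le_ceil A
  have u4 := Int.ceil_lt_add_one A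
  have e2 : |(Nn : ℚ) - B| ≤ 1 := by
    rw [abs_le]
    constructor <;> linarith
  have e3 : |((Nn : ℚ) - B : ℚ)| = |(Nn : ℚ) - B| := rfl
  have e4 : ((|(Nn : ℚ) - B| : ℚ) : ℝ) ≤ ((1 : ℚ) : ℝ) := by exact_mod_cast e2
  rw [hB] at e4
  push_cast at e4
  exact e4

/-- two coprime congruences -/
lemma crt_class (q Q P : ℕ) (hqQ : Nat.Coprime q Q) (hPQ : Nat.Coprime P Q) (b0 r : ℤ) :
    ∃ v : ℤ, ∀ x : ℤ, ((q : ℤ) ∣ x - r ∧ (Q : ℤ) ∣ b0 + P * x) ↔ ((q * Q : ℕ) : ℤ) ∣ x - v := by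
  have hc1 : IsCoprime (P : ℤ) (Q : ℤ) := Nat.isCoprime_iff_coprime.2 hPQ
  have hc2 : IsCoprime (q : ℤ) (Q : ℤ) := Nat.isCoprime_iff_coprime.2 hqQ
  obtain ⟨u, w, huw⟩ := hc1
  obtain ⟨s, t, hst⟩ := id hc2
  -- x ≡ -b0*u mod Q ; x ≡ r mod q
  refine ⟨r * (t * Q) + (-b0 * u) * (s * q), fun x => ?_⟩
  have k1 : ∀ x : ℤ, ((Q : ℤ) ∣ b0 + P * x ↔ (Q : ℤ) ∣ x - (-b0 * u)) := by
    intro x
    constructor
    · intro h
      have : x - (-b0 * u) = u * (b0 + P * x) + (w * x) * Q := by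
        have : x = (u * P + w * Q) * x := by rw [huw]; ring
        linear_combination this
      rw [this]
      exact dvd_add (Dvd.dvd.mul_left h u) (Dvd.intro_left _ rfl)
    · intro h
      have : b0 + P * x = P * (x - (-b0 * u)) + (b0 * w) * Q := by
        have : b0 = (u * P + w * Q) * b0 := by rw [huw]; ring
        linear_combination this
      rw [this]
      exact dvd_add (Dvd.dvd.mul_left h _) (Dvd.intro_left _ rfl)
  have k2 : ((q : ℤ) ∣ x - r ↔ (q : ℤ) ∣ x - (r * (t * Q) + (-b0 * u) * (s * q))) := by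
    have e : x - (r * (t * Q) + (-b0 * u) * (s * q)) = (x - r) + q * (r * s + b0 * u * s) := by
      have : r = (s * q + t * Q) * r := by rw [hst]; ring
      linear_combination this
    rw [e]
    constructor
    · intro h; exact dvd_add h (Dvd.intro _ rfl)
    · intro h; exact (dvd_add_left (Dvd.intro _ rfl)).1 h
  have k3 : ((Q : ℤ) ∣ x - (-b0 * u) ↔ (Q : ℤ) ∣ x - (r * (t * Q) + (-b0 * u) * (s * q))) := by
    have e : x - (r * (t * Q) + (-b0 * u) * (s * q)) =
        (x - (-b0 * u)) + Q * (- (r * t) + (-b0 * u) * t) := by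
      have : (-b0 * u) = (s * q + t * Q) * (-b0 * u) := by rw [hst]; ring
      linear_combination this
    rw [e]
    constructor
    · intro h; exact dvd_add h (Dvd.intro _ rfl)
    · intro h; exact (dvd_add_left (Dvd.intro _ rfl)).1 h
  rw [k1 x, k2, k3]
  push_cast
  constructor
  · rintro ⟨h1, h2⟩
    exact hc2.mul_dvd h1 h2
  · intro h
    exact ⟨(Dvd.intro _ rfl).trans h, (Dvd.intro_left _ rfl).trans h⟩

/-- indicator of coprimality -/
lemma coprime_ind (d : ℕ) (hd : d ≠ 0) (n : ℤ) :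
    (if IsCoprime n (d : ℤ) then (1 : ℝ) else 0) =
      ∑ T ∈ d.primeFactors.powerset, (-1) ^ T.card *
        (if ((∏ p ∈ T, p : ℕ) : ℤ) ∣ n then (1 : ℝ) else 0) := by
  have h1 : (if IsCoprime n (d : ℤ) then (1 : ℝ) else 0) =
      ∏ p ∈ d.primeFactors, (1 + -(if (p : ℤ) ∣ n then (1 : ℝ) else 0)) := by
    by_cases h : IsCoprime n (d : ℤ)
    · rw [if_pos h]
      symm
      apply Finset.prod_eq_one
      intro p hp
      have hpp := Nat.prime_of_mem_primeFactors hp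
      have hpd := Nat.dvd_of_mem_primeFactors hp
      have : ¬ ((p : ℤ) ∣ n) := by
        intro hdn
        have := h.isUnit_of_dvd' hdn (by exact_mod_cast hpd)
        have h2 := Int.isUnit_iff_natAbs_eq.1 this
        simp at h2
        exact hpp.one_lt.ne' h2
      rw [if_neg this]; ring
    · rw [if_neg h]
      symm
      have : ∃ p ∈ d.primeFactors, (p : ℤ) ∣ n := by
        by_contra hcon
        push Not at hcon
        apply h
        rw [Int.isCoprime_iff_gcd_eq_one]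
        by_contra hg
        obtain ⟨p, hp, hpg⟩ := Nat.exists_prime_and_dvd hg
        have h3 : (p : ℤ) ∣ n := (Int.natCast_dvd_natCast.2 hpg).trans (Int.gcd_dvd_left _ _)
        have h4 : (p : ℤ) ∣ (d : ℤ) := (Int.natCast_dvd_natCast.2 hpg).trans (Int.gcd_dvd_right _ _)
        exact hcon p (Nat.mem_primeFactors.2 ⟨hp, by exact_mod_cast h4, hd⟩) h3
      obtain ⟨p, hp, hpn⟩ := this
      apply Finset.prod_eq_zero hp
      rw [if_pos hpn]; ring
  rw [h1, Finset.prod_one_add]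
  apply Finset.sum_congr rfl
  intro T hT
  rw [Finset.mem_powerset] at hT
  have h2 : ∏ p ∈ T, (-(if (p : ℤ) ∣ n then (1 : ℝ) else 0)) =
      (-1) ^ T.card * ∏ p ∈ T, (if (p : ℤ) ∣ n then (1 : ℝ) else 0) := by
    rw [← Finset.prod_const, ← Finset.prod_mul_distrib]
    apply Finset.prod_congr rfl
    intro p _; ring
  rw [h2]
  congr 1
  by_cases h : ((∏ p ∈ T, p : ℕ) : ℤ) ∣ n
  · rw [if_pos h]
    apply Finset.prod_eq_one
    intro p hp
    rw [if_pos]
    exact (Int.natCast_dvd_natCast.2 (Finset.dvd_prod_of_mem _ hp)).trans h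
  · rw [if_neg h]
    have : ∃ p ∈ T, ¬ (p : ℤ) ∣ n := by
      by_contra hcon
      push Not at hcon
      apply h
      rw [Int.natCast_dvd]
      apply Finset.prod_primes_dvd
      · intro p hp
        exact (Nat.prime_of_mem_primeFactors (hT hp)).prime
      · intro p hp
        exact Int.natCast_dvd.1 (hcon p hp)
    obtain ⟨p, hp, hpn⟩ := this
    apply Finset.prod_eq_zero hp
    rw [if_neg hpn]

lemma totient_div (d : ℕ) (hd : d ≠ 0) :
    ((Nat.totient d : ℕ) : ℝ) / d = ∏ p ∈ d.primeFactors, (1 - 1 / (p : ℝ)) := by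
  have h := Nat.totient_eq_mul_prod_factors d
  have h2 : ((Nat.totient d : ℚ) : ℝ) = ((d * ∏ p ∈ d.primeFactors, (1 - (p : ℚ)⁻¹) : ℚ) : ℝ) := by
    rw [h]
  push_cast at h2
  rw [h2]
  have : (d : ℝ) ≠ 0 := by exact_mod_cast hd
  rw [mul_div_cancel_left₀ _ this]
  simp [one_div]

/-- counting in the set `{x ∈ I : gcd(b0 + P x, d) = 1}` -/
lemma count_main (d P q : ℕ) (hd : d ≠ 0) (hq : 0 < q) (hPd : Nat.Coprime P d)
    (hqd : Nat.Coprime q d) (b0 m0 r : ℤ) (L : ℕ) :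
    |((((Finset.Ico m0 (m0 + L)).filter (fun x => IsCoprime (b0 + P * x) (d : ℤ))).filter
      (fun x => (q : ℤ) ∣ x - r)).card : ℝ) - (L * ((Nat.totient d : ℕ) : ℝ) / d) / q| ≤
      2 ^ d.primeFactors.card := by
  classical
  have h1 : ((((Finset.Ico m0 (m0 + L)).filter (fun x => IsCoprime (b0 + P * x) (d : ℤ))).filter
      (fun x => (q : ℤ) ∣ x - r)).card : ℝ) =
      ∑ T ∈ d.primeFactors.powerset, (-1) ^ T.card *
        (((Finset.Ico m0 (m0 + L)).filter (fun x => (q : ℤ) ∣ x - r ∧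
          ((∏ p ∈ T, p : ℕ) : ℤ) ∣ b0 + P * x)).card : ℝ) := by
    rw [Finset.filter_filter, Finset.card_filter]
    push_cast
    have : ∀ x ∈ Finset.Ico m0 (m0 + L),
        (if IsCoprime (b0 + P * x) (d : ℤ) ∧ (q : ℤ) ∣ x - r then (1 : ℝ) else 0) =
        ∑ T ∈ d.primeFactors.powerset, (-1) ^ T.card *
        (if ((q : ℤ) ∣ x - r ∧ ((∏ p ∈ T, p : ℕ) : ℤ) ∣ b0 + P * x) then (1 : ℝ) else 0) := by
      intro x _
      by_cases hx : (q : ℤ) ∣ x - r
      · simp only [hx, and_true, true_and]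
        exact coprime_ind d hd _
      · simp [hx]
    have this2 : ∀ x ∈ Finset.Ico m0 (m0 + L),
        (if IsCoprime (b0 + P * x) (d : ℤ) ∧ (q : ℤ) ∣ x - r then (1 : ℝ) else 0) =
        ∑ T ∈ d.primeFactors.powerset, (-1) ^ T.card *
        (if ((q : ℤ) ∣ x - r ∧ ((∏ p ∈ T, p : ℕ) : ℤ) ∣ b0 + P * x) then (1 : ℝ) else 0) := this
    have e0 := Finset.sum_congr rfl this2
    rw [e0, Finset.sum_comm]
    apply Finset.sum_congr rfl
    intro T _
    rw [← Finset.mul_sum, Finset.card_filter]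
    push_cast
    rfl
  have h2 : (L * ((Nat.totient d : ℕ) : ℝ) / d) / q =
      ∑ T ∈ d.primeFactors.powerset, (-1) ^ T.card * ((L : ℝ) / ((q * ∏ p ∈ T, p : ℕ) : ℝ)) := by
    have e1 := totient_div d hd
    have e2 : ∏ p ∈ d.primeFactors, (1 - 1 / (p : ℝ)) = ∑ T ∈ d.primeFactors.powerset,
        (-1) ^ T.card * (1 / ((∏ p ∈ T, p : ℕ) : ℝ)) := by
      have : ∀ p ∈ d.primeFactors, (1 - 1 / (p : ℝ)) = 1 + (-(1 / (p : ℝ))) := fun p _ => by ring
      rw [Finset.prod_congr rfl this, Finset.prod_one_add]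
      apply Finset.sum_congr rfl
      intro T _
      have : ∏ p ∈ T, (-(1 / (p : ℝ))) = ∏ p ∈ T, ((-1) * (1 / (p : ℝ))) :=
        Finset.prod_congr rfl (fun p _ => by ring)
      rw [this, Finset.prod_mul_distrib, Finset.prod_const]
      congr 1
      rw [Finset.prod_div_distrib]
      simp
    have e3 : (L * ((Nat.totient d : ℕ) : ℝ) / d) / q =
        (((Nat.totient d : ℕ) : ℝ) / d) * (L / q) := by ring
    rw [e3, e1, e2, Finset.sum_mul]
    apply Finset.sum_congr rfl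
    intro T _
    push_cast
    rw [mul_assoc]
    congr 1
    rw [div_mul_div_comm, one_mul, mul_comm (∏ p ∈ T, (p : ℝ))]
  rw [h1, h2, ← Finset.sum_sub_distrib]
  refine (Finset.abs_sum_le_sum_abs _ _).trans ?_
  have h3 : ∀ T ∈ d.primeFactors.powerset, |(-1) ^ T.card *
        (((Finset.Ico m0 (m0 + L)).filter (fun x => (q : ℤ) ∣ x - r ∧
          ((∏ p ∈ T, p : ℕ) : ℤ) ∣ b0 + P * x)).card : ℝ) -
        (-1) ^ T.card * ((L : ℝ) / ((q * ∏ p ∈ T, p : ℕ) : ℝ))| ≤ 1 := by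
    intro T hT
    rw [Finset.mem_powerset] at hT
    rw [← mul_sub, abs_mul, abs_pow, abs_neg, abs_one, one_pow, one_mul]
    have hTd : (∏ p ∈ T, p) ∣ d := by
      apply Finset.prod_primes_dvd
      · intro p hp
        exact (Nat.prime_of_mem_primeFactors (hT hp)).prime
      · intro p hp
        exact Nat.dvd_of_mem_primeFactors (hT hp)
    have hTpos : 0 < ∏ p ∈ T, p := Nat.pos_of_dvd_of_pos hTd (Nat.pos_of_ne_zero hd)
    obtain ⟨v, hv⟩ := crt_class q (∏ p ∈ T, p) P (Nat.Coprime.coprime_dvd_right hTd hqd)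
      (Nat.Coprime.coprime_dvd_right hTd hPd) b0 r
    have e4 : (Finset.Ico m0 (m0 + L)).filter (fun x => (q : ℤ) ∣ x - r ∧
          ((∏ p ∈ T, p : ℕ) : ℤ) ∣ b0 + P * x) =
        (Finset.Ico m0 (m0 + L)).filter (fun x => ((q * ∏ p ∈ T, p : ℕ) : ℤ) ∣ x - v) :=
      Finset.filter_congr (fun x _ => hv x)
    rw [e4]
    exact class_count m0 v L (q * ∏ p ∈ T, p) (Nat.mul_pos hq hTpos)
  refine (Finset.sum_le_sum h3).trans ?_
  rw [Finset.sum_const, Finset.card_powerset]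
  simp


/-- `2 ^ ω(d) ≤ d ^ (1 / 20)` for large `d` -/
lemma omega_bound : ∃ d₀ : ℕ, ∀ d : ℕ, d₀ ≤ d →
    (2 : ℝ) ^ d.primeFactors.card ≤ (d : ℝ) ^ (1 / 20 : ℝ) := by
  obtain ⟨W, hW⟩ : ∃ W : ℕ, W = 2 ^ 40 := ⟨_, rfl⟩
  obtain ⟨D, hD⟩ : ∃ D : ℕ, D = (2 ^ W) ^ 40 := ⟨_, rfl⟩
  refine ⟨D + 1, fun d hd => ?_⟩
  have hd0 : d ≠ 0 := by omega
  have hW1 : (1 : ℝ) ≤ W := by
    rw [hW]; push_cast; norm_num
  set big := d.primeFactors.filter (fun p => W < p) with hbig
  set sml := d.primeFactors.filter (fun p => ¬ W < p) with hsml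
  have hcard : d.primeFactors.card = big.card + sml.card := by
    rw [hbig, hsml, Finset.card_filter_add_card_filter_not]
  have hs : sml.card ≤ W := by
    have : sml ⊆ Finset.Icc 1 W := by
      intro p hp
      rw [hsml, Finset.mem_filter] at hp
      rw [Finset.mem_Icc]
      exact ⟨(Nat.prime_of_mem_primeFactors hp.1).one_lt.le, not_lt.1 hp.2⟩
    have := Finset.card_le_card this
    simpa using this
  have hb : W ^ big.card ≤ d := by
    have h1 : W ^ big.card ≤ ∏ p ∈ big, p := by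
      rw [← Finset.prod_const]
      apply Finset.prod_le_prod'
      intro p hp
      rw [hbig, Finset.mem_filter] at hp
      exact hp.2.le
    have h2 : ∏ p ∈ big, p ∣ d := by
      apply Finset.prod_primes_dvd
      · intro p hp
        rw [hbig, Finset.mem_filter] at hp
        exact (Nat.prime_of_mem_primeFactors hp.1).prime
      · intro p hp
        rw [hbig, Finset.mem_filter] at hp
        exact Nat.dvd_of_mem_primeFactors hp.1
    exact h1.trans (Nat.le_of_dvd (Nat.pos_of_ne_zero hd0) h2)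
  have hdr : (1 : ℝ) ≤ d := by exact_mod_cast Nat.one_le_iff_ne_zero.2 hd0
  have h40 : ∀ a : ℝ, 0 ≤ a → (a ^ 40) ^ (1 / 40 : ℝ) = a := by
    intro a ha
    rw [← Real.rpow_natCast, ← Real.rpow_mul ha]
    norm_num
  have hA : (2 : ℝ) ^ big.card ≤ (d : ℝ) ^ (1 / 40 : ℝ) := by
    have h3 : ((2 : ℝ) ^ big.card) ^ 40 ≤ d := by
      have : ((W ^ big.card : ℕ) : ℝ) ≤ d := by exact_mod_cast hb
      rw [← pow_mul, mul_comm, pow_mul]
      rw [hW] at this
      push_cast at this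
      have e2 : (2 : ℝ) ^ 40 = 1099511627776 := by norm_num
      rw [e2]
      simpa using this
    have h4 := Real.rpow_le_rpow (by positivity) h3 (show (0 : ℝ) ≤ 1 / 40 by norm_num)
    rwa [h40 _ (by positivity)] at h4
  have hB : (2 : ℝ) ^ sml.card ≤ (d : ℝ) ^ (1 / 40 : ℝ) := by
    have h3 : (2 : ℝ) ^ sml.card ≤ (2 : ℝ) ^ W := pow_le_pow_right₀ (by norm_num) hs
    have h5 : ((2 : ℝ) ^ W) ^ 40 ≤ d := by
      have : D ≤ d := by omega
      have h6 : (D : ℝ) ≤ d := by exact_mod_cast this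
      rw [hD] at h6
      push_cast at h6
      exact h6
    have h4 := Real.rpow_le_rpow (by positivity) h5 (show (0 : ℝ) ≤ 1 / 40 by norm_num)
    rw [h40 _ (by positivity)] at h4
    exact h3.trans h4
  rw [hcard, pow_add]
  calc (2 : ℝ) ^ big.card * 2 ^ sml.card ≤ (d : ℝ) ^ (1 / 40 : ℝ) * (d : ℝ) ^ (1 / 40 : ℝ) :=
        mul_le_mul hA hB (by positivity) (by positivity)
    _ = (d : ℝ) ^ (1 / 20 : ℝ) := by
        rw [← Real.rpow_add (by linarith)]
        norm_num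

/-- Mertens' product over the primes not dividing `d` -/
lemma mertens_prod : ∃ C : ℝ, 0 ≤ C ∧ ∀ N : ℕ, 3 ≤ N → ∀ F : Finset ℕ, (∀ p ∈ F, p.Prime) →
    (∏ p ∈ ((Finset.Icc 1 N).filter Nat.Prime) \ F, (1 - 1 / (p : ℝ))) *
      ∏ p ∈ F, (1 - 1 / (p : ℝ)) ≤ Real.exp C / Real.log N := by
  obtain ⟨C, hC⟩ := Pool.Agent.Helper256.KM.mertens_inv
  refine ⟨|C|, abs_nonneg _, fun N hN F hF => ?_⟩
  set A := (Finset.Icc 1 N).filter Nat.Prime with hAdef
  have hpos : ∀ p : ℕ, p.Prime → 0 < 1 - 1 / (p : ℝ) := by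
    intro p hp
    have : (1 : ℝ) < p := by exact_mod_cast hp.one_lt
    rw [sub_pos, div_lt_one (by linarith)]
    exact this
  have hle : ∀ p : ℕ, p.Prime → 1 - 1 / (p : ℝ) ≤ 1 := by
    intro p hp
    have : (0 : ℝ) ≤ 1 / (p : ℝ) := by positivity
    linarith
  have h1 : ∏ p ∈ F, (1 - 1 / (p : ℝ)) ≤ ∏ p ∈ F ∩ A, (1 - 1 / (p : ℝ)) := by
    rw [← Finset.prod_sdiff (Finset.inter_subset_left (s₁ := F) (s₂ := A))]
    have : ∏ p ∈ F \ (F ∩ A), (1 - 1 / (p : ℝ)) ≤ 1 := by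
      apply Finset.prod_le_one
      · intro p hp; exact (hpos p (hF p (Finset.mem_sdiff.1 hp).1)).le
      · intro p hp; exact hle p (hF p (Finset.mem_sdiff.1 hp).1)
    have h0 : 0 ≤ ∏ p ∈ F ∩ A, (1 - 1 / (p : ℝ)) :=
      Finset.prod_nonneg fun p hp => (hpos p (hF p (Finset.mem_inter.1 hp).1)).le
    nlinarith
  have h2 : (∏ p ∈ A \ F, (1 - 1 / (p : ℝ))) * ∏ p ∈ F ∩ A, (1 - 1 / (p : ℝ)) =
      ∏ p ∈ A, (1 - 1 / (p : ℝ)) := by
    rw [Finset.inter_comm]
    rw [← Finset.prod_union]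
    · congr 1
      exact Finset.sdiff_union_inter A F
    · exact Finset.disjoint_sdiff_inter A F
  have h3 : 0 ≤ ∏ p ∈ A \ F, (1 - 1 / (p : ℝ)) := by
    apply Finset.prod_nonneg
    intro p hp
    rw [Finset.mem_sdiff, hAdef, Finset.mem_filter] at hp
    exact (hpos p hp.1.2).le
  have h4 : ∏ p ∈ A, (1 - 1 / (p : ℝ)) ≤ Real.exp (-∑ p ∈ A, (1 : ℝ) / p) := by
    rw [← Finset.sum_neg_distrib, Real.exp_sum]
    apply Finset.prod_le_prod
    · intro p hp
      rw [hAdef, Finset.mem_filter] at hp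
      exact (hpos p hp.2).le
    · intro p _
      have := Real.add_one_le_exp (-(1 / (p : ℝ)))
      linarith
  have h5 := (abs_le.1 (hC N hN)).1
  have hNr : (3 : ℝ) ≤ N := by exact_mod_cast hN
  have hlog : 0 < Real.log N := Real.log_pos (by linarith)
  have h6 : Real.exp (-∑ p ∈ A, (1 : ℝ) / p) ≤ Real.exp |C| / Real.log N := by
    rw [div_eq_mul_inv, ← Real.exp_log (inv_pos.2 hlog), Real.log_inv, ← Real.exp_add]
    apply Real.exp_le_exp.2
    have := le_abs_self C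
    linarith
  calc (∏ p ∈ A \ F, (1 - 1 / (p : ℝ))) * ∏ p ∈ F, (1 - 1 / (p : ℝ))
      ≤ (∏ p ∈ A \ F, (1 - 1 / (p : ℝ))) * ∏ p ∈ F ∩ A, (1 - 1 / (p : ℝ)) :=
        mul_le_mul_of_nonneg_left h1 h3
    _ = ∏ p ∈ A, (1 - 1 / (p : ℝ)) := h2
    _ ≤ _ := h4.trans h6

/-- `φ(d) / d ≥ 2 ^ (-ω(d))` -/
lemma prod_ge_half (d : ℕ) :
    (1 / 2 : ℝ) ^ d.primeFactors.card ≤ ∏ p ∈ d.primeFactors, (1 - 1 / (p : ℝ)) := by
  rw [← Finset.prod_const]
  apply Finset.prod_le_prod
  · intro p _; norm_num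
  · intro p hp
    have h2 : (2 : ℝ) ≤ p := by exact_mod_cast (Nat.prime_of_mem_primeFactors hp).two_le
    have : 1 / (p : ℝ) ≤ 1 / 2 := one_div_le_one_div_of_le (by norm_num) h2
    linarith

/-- number of prime factors -/
lemma card_primeFactors_le (d : ℕ) (hd : d ≠ 0) :
    (d.primeFactors.card : ℝ) ≤ 2 * Real.log d := by
  have h1 : 2 ^ d.primeFactors.card ≤ d := by
    have h1 : 2 ^ d.primeFactors.card ≤ ∏ p ∈ d.primeFactors, p := by
      rw [← Finset.prod_const]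
      apply Finset.prod_le_prod'
      intro p hp
      exact (Nat.prime_of_mem_primeFactors hp).two_le
    exact h1.trans (Nat.le_of_dvd (Nat.pos_of_ne_zero hd) (Nat.prod_primeFactors_dvd d))
  have h2 : ((2 : ℝ)) ^ d.primeFactors.card ≤ d := by exact_mod_cast h1
  have h3 := Real.log_le_log (by positivity) h2
  rw [Real.log_pow] at h3
  have h4 := Real.log_two_gt_d9
  have h5 : (0 : ℝ) ≤ (d.primeFactors.card : ℝ) := by positivity
  nlinarith

/-- chinese remainder theorem for the small primes -/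
lemma crt_small (S : Finset ℕ) (hS : ∀ p ∈ S, p.Prime) (e : ℕ → ℕ) :
    ∃ b0 : ℕ, b0 < ∏ p ∈ S, p ∧ ∀ p ∈ S, p ∣ b0 + e p := by
  obtain ⟨k, hk⟩ := Nat.chineseRemainderOfFinset (fun p => (p - 1) * e p) (fun p => p) S
    (fun p hp => (hS p hp).ne_zero) (by
      intro p hp q hq hpq
      exact (Nat.coprime_primes (hS p hp) (hS q hq)).2 hpq)
  refine ⟨k % ∏ p ∈ S, p, Nat.mod_lt _ (Finset.prod_pos fun p hp => (hS p hp).pos), ?_⟩
  intro p hp
  have h1 : (k % ∏ p ∈ S, p) ≡ k [MOD p] :=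
    (Nat.mod_modEq k _).of_dvd (Finset.dvd_prod_of_mem _ hp)
  have h2 : (k % ∏ p ∈ S, p) + e p ≡ (p - 1) * e p + e p [MOD p] :=
    (h1.trans (hk p hp)).add_right _
  have h3 : (p - 1) * e p + e p = p * e p := by
    have := (hS p hp).pos
    obtain ⟨r, rfl⟩ : ∃ r, p = r + 1 := ⟨p - 1, by omega⟩
    simp; ring
  rw [h3] at h2
  exact (Nat.modEq_zero_iff_dvd.1 (h2.trans (Nat.modEq_zero_iff_dvd.2 (Dvd.intro _ rfl))))


open scoped Classical

/-- statement of the covering theorem (task V) -/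
def Covering : Prop := ∃ c : ℝ, 0 < c ∧ ∃ X₀ : ℝ, ∀ X : ℝ, X₀ ≤ X →
    ∀ (B : Finset ℕ), (B.card : ℝ) ≤ 2 * Real.log X →
    ∀ (κ : Type) [Fintype κ] [DecidableEq κ], (Fintype.card κ : ℝ) ≤ c * Real.log X →
    ∀ (res : ℕ → κ → ℤ),
    (∀ p : ℕ, p.Prime → (Real.log X) ^ 2 < p → (p : ℝ) ≤ X ^ (1 / 10 : ℝ) → p ∉ B →
      ∀ k l, k ≠ l → ¬ ((p : ℤ) ∣ res p k - res p l)) →
    ∀ (𝒜 : Finset ℤ) (N Err : ℝ), X ^ (1 / 2 : ℝ) ≤ N → 0 ≤ Err → Err ≤ X ^ (1 / 10 : ℝ) →
    (∀ q : ℕ, Squarefree q → (q : ℝ) ≤ X ^ (1 / 4 : ℝ) →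
      (∀ p ∈ q.primeFactors, (Real.log X) ^ 2 < p ∧ p ∉ B) →
      ∀ r : ℤ, |((𝒜.filter (fun x => (q : ℤ) ∣ x - r)).card : ℝ) - N / q| ≤ Err) →
    ∃ x ∈ 𝒜, ∀ k : κ, ∃ p : ℕ, p.Prime ∧ (Real.log X) ^ 2 < p ∧ (p : ℝ) ≤ X ^ (1 / 10 : ℝ) ∧
      p ∉ B ∧ (p : ℤ) ∣ x - res p k

/-- statement of the greedy lemma (task R1b) -/
def GreedyAll : Prop := ∀ (S : Finset ℕ), (∀ p ∈ S, p.Prime) → ∀ (R : Finset ℕ),
    ∃ b : ℕ → ℕ, (∀ p ∈ S, b p < p) ∧
      ((R.filter (fun k => ∀ p ∈ S, ¬ k ≡ b p [MOD p])).card : ℝ) ≤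
        R.card * ∏ p ∈ S, (1 - 1 / (p : ℝ))

lemma sizes (l : ℝ) (hl : 400 ≤ l) : 3 ≤ ⌊l / 10⌋₊ ∧ Real.log l / 2 ≤ Real.log (⌊l / 10⌋₊ : ℕ) ∧
    1 ≤ Real.log l ∧ Real.log l ≤ l := by
  have h1 : l / 10 < (⌊l / 10⌋₊ : ℕ) + 1 := Nat.lt_floor_add_one _
  have hpos : 0 < l := by linarith
  have hs : Real.sqrt l ^ 2 = l := Real.sq_sqrt hpos.le
  have hs2 : 20 ≤ Real.sqrt l := by
    rw [show (20 : ℝ) = Real.sqrt 400 by rw [show (400 : ℝ) = 20 ^ 2 by norm_num]; rw [Real.sqrt_sq (by norm_num)]]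
    exact Real.sqrt_le_sqrt hl
  refine ⟨Nat.le_floor (by push_cast; linarith), ?_, ?_, ?_⟩
  · have h2 : Real.log l / 2 = Real.log (Real.sqrt l) := by
      rw [Real.log_sqrt hpos.le]
    rw [h2]
    apply Real.log_le_log (by linarith)
    nlinarith
  · rw [Real.le_log_iff_exp_le hpos]
    have := Real.exp_one_lt_d9
    linarith
  · have := Real.log_le_sub_one_of_pos hpos
    linarith

theorem least_prime_progression_of (hcov : Covering) (hgr : GreedyAll) :
    ∃ c : ℝ, 0 < c ∧ ∃ d₀ : ℕ, ∀ d : ℕ, d₀ ≤ d →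
    ∃ a : ℕ, 1 ≤ a ∧ a < d ∧ Nat.Coprime a d ∧
      ∀ p : ℕ, p.Prime → p % d = a →
        c * (Nat.totient d : ℝ) * Real.log d * Real.log (Real.log d) < p := by
  obtain ⟨c₁, hc₁, X₀, hcov⟩ := hcov
  obtain ⟨C, hC0, hC⟩ := mertens_prod
  obtain ⟨D₁, hD₁⟩ := omega_bound
  obtain ⟨D₂, hD₂⟩ : ∃ D₂ : ℕ, Real.exp 400 ≤ D₂ := exists_nat_ge _
  obtain ⟨D₃, hD₃⟩ : ∃ D₃ : ℕ, X₀ ≤ D₃ := exists_nat_ge _
  set c' : ℝ := min 1 (c₁ * Real.exp (-C) / 2) with hc'
  have hc'0 : 0 < c' := by rw [hc']; exact lt_min one_pos (by positivity)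
  have hc'1 : c' ≤ 1 := min_le_left _ _
  have hc'2 : 2 * c' * Real.exp C ≤ c₁ := by
    have h1 : c' ≤ c₁ * Real.exp (-C) / 2 := min_le_right _ _
    have h2 : Real.exp (-C) * Real.exp C = 1 := by rw [← Real.exp_add]; simp
    have h3 := mul_le_mul_of_nonneg_right h1 (Real.exp_pos C).le
    nlinarith
  refine ⟨c' / 8, by positivity, max D₁ (max D₂ D₃), fun d hd => ?_⟩
  have hd1 : D₁ ≤ d := (le_max_left _ _).trans hd
  have hd2 : D₂ ≤ d := ((le_max_left _ _).trans (le_max_right _ _)).trans hd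
  have hd3 : D₃ ≤ d := ((le_max_right _ _).trans (le_max_right _ _)).trans hd
  have hX0 : X₀ ≤ d := hD₃.trans (by exact_mod_cast hd3)
  have hexp : Real.exp 400 ≤ d := hD₂.trans (by exact_mod_cast hd2)
  have hdpos : (0 : ℝ) < d := (Real.exp_pos _).trans_le hexp
  have hd0 : d ≠ 0 := by
    intro h; rw [h] at hdpos; simp at hdpos
  have hl : 400 ≤ Real.log d := by
    rw [Real.le_log_iff_exp_le hdpos]; exact hexp
  have hdr1 : (1 : ℝ) ≤ d := by
    have := Real.add_one_le_exp 400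
    linarith
  obtain ⟨s1, s2, s3, s4⟩ := sizes (Real.log d) hl
  set l := Real.log d with hldef
  set Ny := ⌊l / 10⌋₊ with hNy
  have hNyle : (Ny : ℝ) ≤ l / 10 := Nat.floor_le (by linarith)
  have hom := hD₁ d hd1
  set pf := d.primeFactors with hpf
  set S := ((Finset.Icc 1 Ny).filter Nat.Prime) \ pf with hS
  have hSp : ∀ p ∈ S, p.Prime := by
    intro p hp
    rw [hS, Finset.mem_sdiff, Finset.mem_filter] at hp
    exact hp.1.2
  have hSle : ∀ p ∈ S, p ≤ Ny := by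
    intro p hp
    rw [hS, Finset.mem_sdiff, Finset.mem_filter, Finset.mem_Icc] at hp
    exact hp.1.1.2
  have hSd : ∀ p ∈ S, ¬ p ∣ d := by
    intro p hp hpd
    have h1 := hSp p hp
    rw [hS, Finset.mem_sdiff] at hp
    exact hp.2 (Nat.mem_primeFactors.2 ⟨h1, hpd, hd0⟩)
  set P := ∏ p ∈ S, p with hP
  have hPpos : 0 < P := Finset.prod_pos fun p hp => (hSp p hp).pos
  have hPd : Nat.Coprime P d := by
    rw [hP]
    apply Nat.Coprime.prod_left
    intro p hp
    exact (Nat.Prime.coprime_iff_not_dvd (hSp p hp)).2 (hSd p hp)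
  have hPle : P ≤ 4 ^ Ny := by
    refine le_trans ?_ (primorial_le_four_pow Ny)
    unfold primorial
    apply Finset.prod_le_prod_of_subset_of_one_le'
    · intro p hp
      rw [Finset.mem_filter, Finset.mem_range]
      exact ⟨Nat.lt_succ_of_le (hSle p hp), hSp p hp⟩
    · intro p hp _
      rw [Finset.mem_filter] at hp
      exact hp.2.one_lt.le
  have hPr : (P : ℝ) ≤ (d : ℝ) ^ (7 / 50 : ℝ) := by
    have h1 : (P : ℝ) ≤ (4 : ℝ) ^ Ny := by exact_mod_cast hPle
    have h2 : (4 : ℝ) ^ Ny = Real.exp (Ny * Real.log 4) := by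
      rw [← Real.rpow_natCast, Real.rpow_def_of_pos (by norm_num)]
      ring_nf
    have h3 : (d : ℝ) ^ (7 / 50 : ℝ) = Real.exp (l * (7 / 50)) := by
      rw [Real.rpow_def_of_pos hdpos]
    rw [h3]
    rw [h2] at h1
    refine h1.trans (Real.exp_le_exp.2 ?_)
    have h4 : Real.log 4 = 2 * Real.log 2 := by
      rw [show (4 : ℝ) = 2 ^ 2 by norm_num, Real.log_pow]; push_cast; ring
    have h5 := Real.log_two_lt_d9
    have h6 : Real.log 4 ≤ 7 / 5 := by linarith
    have h7 : 0 ≤ Real.log 4 := by rw [h4]; have := Real.log_two_gt_d9; linarith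
    nlinarith
  -- the number of shifts
  set t : ℝ := c' * (Nat.totient d : ℝ) / d * l * Real.log l with ht
  set M := ⌊t⌋₊ with hM
  have ht0 : 0 ≤ t := by
    rw [ht]
    have : 0 ≤ Real.log l := by linarith
    positivity
  have hMt : (M : ℝ) ≤ t := Nat.floor_le ht0
  have hphi1 : (Nat.totient d : ℝ) / d ≤ 1 := by
    rw [div_le_one hdpos]
    exact_mod_cast Nat.totient_le d
  have hphi0 : 0 < (Nat.totient d : ℝ) / d := by
    have : 0 < Nat.totient d := Nat.totient_pos.2 (Nat.pos_of_ne_zero hd0)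
    positivity
  have htl : t ≤ l ^ 2 := by
    have e : t = c' * ((Nat.totient d : ℝ) / d) * (l * Real.log l) := by rw [ht]; ring
    rw [e]
    have h1 : c' * ((Nat.totient d : ℝ) / d) ≤ 1 := by nlinarith
    have h2 : l * Real.log l ≤ l ^ 2 := by nlinarith
    have h3 : 0 ≤ l * Real.log l := by
      have : 0 ≤ Real.log l := by linarith
      have : 0 ≤ l := by linarith
      positivity
    nlinarith
  obtain ⟨b, hb1, hb2⟩ := hgr S hSp (Finset.range M)
  set U := (Finset.range M).filter (fun k => ∀ p ∈ S, ¬ k ≡ b p [MOD p]) with hU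
  have hUcard : (U.card : ℝ) ≤ c₁ * l := by
    refine hb2.trans ?_
    rw [Finset.card_range]
    have h1 := hC Ny s1 pf (fun p hp => Nat.prime_of_mem_primeFactors hp)
    rw [← totient_div d hd0] at h1
    have h2 : Real.exp C / Real.log Ny ≤ 2 * Real.exp C / Real.log l := by
      rw [div_le_div_iff₀ (by linarith) (by linarith)]
      have := Real.exp_pos C
      nlinarith
    have h3 : 0 ≤ ∏ p ∈ S, (1 - 1 / (p : ℝ)) := by
      apply Finset.prod_nonneg
      intro p hp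
      have : (1 : ℝ) < p := by exact_mod_cast (hSp p hp).one_lt
      have : 1 / (p : ℝ) < 1 := by rw [div_lt_one (by linarith)]; exact this
      linarith
    have hll : 0 < Real.log l := by linarith
    calc (M : ℝ) * ∏ p ∈ S, (1 - 1 / (p : ℝ)) ≤ t * ∏ p ∈ S, (1 - 1 / (p : ℝ)) :=
          mul_le_mul_of_nonneg_right hMt h3
      _ = (c' * l * Real.log l) * ((∏ p ∈ S, (1 - 1 / (p : ℝ))) * ((Nat.totient d : ℝ) / d)) := by
          rw [ht]; ring
      _ ≤ (c' * l * Real.log l) * (2 * Real.exp C / Real.log l) := by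
          apply mul_le_mul_of_nonneg_left (h1.trans h2)
          have : 0 ≤ l := by linarith
          positivity
      _ = (2 * c' * Real.exp C) * l := by
          field_simp
      _ ≤ c₁ * l := by
          apply mul_le_mul_of_nonneg_right hc'2 (by linarith)
  -- the residue class modulo the small primes
  obtain ⟨b0, hb0, hb0'⟩ := crt_small S hSp (fun p => b p * d)
  rw [← hP] at hb0
  -- residues modulo the large primes
  have hinv : ∀ p : ℕ, p.Prime → l ^ 2 < p → ∃ u : ℤ, (p : ℤ) ∣ P * u - 1 := by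
    intro p hp hpl
    have h1 : Nat.Coprime P p := by
      rw [hP]
      apply Nat.Coprime.prod_left
      intro r hr
      rw [Nat.coprime_primes (hSp r hr) hp]
      rintro rfl
      have h2 : (r : ℝ) ≤ l / 10 := (by exact_mod_cast hSle r hr : (r : ℝ) ≤ Ny).trans hNyle
      nlinarith
    obtain ⟨u, w, huw⟩ := Nat.isCoprime_iff_coprime.2 h1
    refine ⟨u, -w, ?_⟩
    linear_combination huw
  choose! inv hinv using hinv
  set res : ℕ → {k // k ∈ U} → ℤ := fun p k => -((b0 : ℤ) + (k.1 : ℤ) * d) * inv p with hres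
  -- the set of candidates
  set m0 : ℤ := (d / (2 * P) : ℕ) + 1 with hm0
  set Ln : ℕ := d / P - (d / (2 * P) + 1) with hLn
  set 𝒜 := (Finset.Ico m0 (m0 + Ln)).filter (fun x => IsCoprime ((b0 : ℤ) + P * x) (d : ℤ)) with h𝒜
  -- size of the interval
  have hPr0 : (0 : ℝ) < P := by exact_mod_cast hPpos
  have hdP : (d : ℝ) ^ (43 / 50 : ℝ) ≤ d / P := by
    rw [le_div_iff₀ hPr0]
    calc (d : ℝ) ^ (43 / 50 : ℝ) * P ≤ (d : ℝ) ^ (43 / 50 : ℝ) * (d : ℝ) ^ (7 / 50 : ℝ) :=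
          mul_le_mul_of_nonneg_left hPr (by positivity)
      _ = d := by rw [← Real.rpow_add hdpos]; norm_num
  have hbig : ∀ e : ℝ, 1 / 50 ≤ e → 16 ≤ (d : ℝ) ^ e := by
    intro e he
    rw [Real.rpow_def_of_pos hdpos]
    have h1 : (8 : ℝ) ≤ l * e := by nlinarith
    have h2 := Real.exp_le_exp.2 h1
    have h3 : (16 : ℝ) ≤ Real.exp 8 := by
      have h4 : Real.exp 8 = Real.exp 1 ^ 8 := by
        rw [← Real.exp_nat_mul]; norm_num
      have h5 := Real.exp_one_gt_d9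
      rw [h4]
      calc (16 : ℝ) ≤ 2 ^ 8 := by norm_num
        _ ≤ Real.exp 1 ^ 8 := pow_le_pow_left₀ (by norm_num) (by linarith) 8
    exact h3.trans h2
  have hLr : (d : ℝ) / P / 4 ≤ Ln := by
    have h1 : (d : ℝ) / P < (d / P : ℕ) + 1 := by
      rw [div_lt_iff₀ hPr0]
      have : d < (d / P + 1) * P := by
        have := Nat.lt_mul_div_succ d hPpos
        linarith [this]
      exact_mod_cast this
    have h2 : ((d / (2 * P) : ℕ) : ℝ) ≤ (d : ℝ) / P / 2 := by
      have := @Nat.cast_div_le ℝ _ _ _ d (2 * P)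
      refine this.trans ?_
      push_cast
      apply le_of_eq
      field_simp
    have h3 : (16 : ℝ) ≤ d / P := (hbig (43 / 50) (by norm_num)).trans hdP
    have h4 : ((d / P : ℕ) : ℝ) ≤ Ln + ((d / (2 * P) : ℕ) + 1 : ℝ) := by
      have : d / P ≤ Ln + (d / (2 * P) + 1) := by omega
      exact_mod_cast this
    linarith
  have hN : (d : ℝ) ^ (1 / 2 : ℝ) ≤ Ln * ((Nat.totient d : ℕ) : ℝ) / d := by
    have h1 : (d : ℝ) ^ (-(1 / 20) : ℝ) ≤ (Nat.totient d : ℝ) / d := by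
      rw [totient_div d hd0]
      refine le_trans ?_ (prod_ge_half d)
      rw [Real.rpow_neg hdpos.le, one_div_pow, ← one_div]
      exact one_div_le_one_div_of_le (by positivity) hom
    have h2 : (d : ℝ) ^ (43 / 50 : ℝ) / 4 ≤ Ln := by
      have : (d : ℝ) ^ (43 / 50 : ℝ) / 4 ≤ d / P / 4 := by linarith
      linarith
    have h3 : (4 : ℝ) ≤ (d : ℝ) ^ (31 / 100 : ℝ) := by
      have := hbig (31 / 100) (by norm_num)
      linarith
    have h4 : (d : ℝ) ^ (43 / 50 : ℝ) * (d : ℝ) ^ (-(1 / 20) : ℝ) =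
        (d : ℝ) ^ (31 / 100 : ℝ) * (d : ℝ) ^ (1 / 2 : ℝ) := by
      rw [← Real.rpow_add hdpos, ← Real.rpow_add hdpos]
      norm_num
    have h5 : (0 : ℝ) < (d : ℝ) ^ (1 / 2 : ℝ) := by positivity
    calc (d : ℝ) ^ (1 / 2 : ℝ) ≤ (d : ℝ) ^ (31 / 100 : ℝ) * (d : ℝ) ^ (1 / 2 : ℝ) / 4 := by
          nlinarith
      _ = (d : ℝ) ^ (43 / 50 : ℝ) / 4 * (d : ℝ) ^ (-(1 / 20) : ℝ) := by
          rw [← h4]; ring
      _ ≤ Ln * ((Nat.totient d : ℝ) / d) :=
          mul_le_mul h2 h1 (by positivity) (by positivity)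
      _ = _ := by ring
  have hErr : (2 : ℝ) ^ pf.card ≤ (d : ℝ) ^ (1 / 10 : ℝ) :=
    hom.trans (Real.rpow_le_rpow_of_exponent_le hdr1 (by norm_num))
  -- apply the covering theorem
  obtain ⟨x, hxA, hx⟩ := hcov d hX0 pf (card_primeFactors_le d hd0) {k // k ∈ U}
    (by rw [Fintype.card_coe]; exact hUcard) res (by
      intro p hp hpl _ hpB k k' hkk' hdvd
      have hpd : ¬ p ∣ d := fun h => hpB (Nat.mem_primeFactors.2 ⟨hp, h, hd0⟩)
      have h1 := hinv p hp hpl
      have hpi : Prime (p : ℤ) := Nat.prime_iff_prime_int.1 hp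
      have h2 : res p k - res p k' = -(((k.1 : ℤ) - k'.1) * d * inv p) := by
        simp only [hres]; ring
      rw [h2, dvd_neg] at hdvd
      rcases hpi.dvd_or_dvd hdvd with h3 | h3
      · rcases hpi.dvd_or_dvd h3 with h4 | h4
        · -- p | k - k'
          have hk := (Finset.mem_range.1 (Finset.mem_filter.1 k.2).1)
          have hk' := (Finset.mem_range.1 (Finset.mem_filter.1 k'.2).1)
          have hMp : M < p := by
            have : (M : ℝ) < p := (hMt.trans htl).trans_lt hpl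
            exact_mod_cast this
          have h5 : ((k.1 : ℤ) - k'.1) = 0 := by
            apply Int.eq_zero_of_abs_lt_dvd h4
            rw [abs_lt]
            constructor <;> omega
          apply hkk'
          apply Subtype.ext
          omega
        · exact hpd (by exact_mod_cast h4)
      · -- p | inv p
        have h6 : (p : ℤ) ∣ 1 := by
          have h7 : (p : ℤ) ∣ P * inv p := Dvd.dvd.mul_left h3 _
          have := dvd_sub h7 h1
          simpa using this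
        exact hpi.not_isUnit (isUnit_of_dvd_one h6))
    𝒜 (Ln * ((Nat.totient d : ℕ) : ℝ) / d) (2 ^ pf.card) hN (by positivity) hErr (by
      intro q hq _ hqp r
      have hqpos : 0 < q := Nat.pos_of_ne_zero hq.ne_zero
      have hqd : Nat.Coprime q d := by
        rw [Nat.coprime_iff_gcd_eq_one]
        by_contra hg
        obtain ⟨p, hp, hpg⟩ := Nat.exists_prime_and_dvd hg
        have h1 : p ∣ q := hpg.trans (Nat.gcd_dvd_left _ _)
        have h2 : p ∣ d := hpg.trans (Nat.gcd_dvd_right _ _)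
        exact (hqp p (Nat.mem_primeFactors.2 ⟨hp, h1, hqpos.ne'⟩)).2
          (Nat.mem_primeFactors.2 ⟨hp, h2, hd0⟩)
      exact count_main d P q hd0 hqpos hPd hqd b0 m0 r Ln)
  rw [h𝒜, Finset.mem_filter, Finset.mem_Ico] at hxA
  obtain ⟨⟨hx1, hx2⟩, hxc⟩ := hxA
  -- the residue class
  have hx0 : 0 ≤ x := by
    have : (0 : ℤ) ≤ (d / (2 * P) : ℕ) := by positivity
    omega
  obtain ⟨xn, rfl⟩ := Int.eq_ofNat_of_zero_le hx0
  set a := b0 + P * xn with ha
  have haz : ((a : ℕ) : ℤ) = (b0 : ℤ) + P * (xn : ℤ) := by rw [ha]; push_cast; ring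
  have hxlow : d / (2 * P) + 1 ≤ xn := by
    have : m0 ≤ (xn : ℤ) := hx1
    rw [hm0] at this
    exact_mod_cast this
  have hxup : xn < d / P := by
    have h1 : (xn : ℤ) < m0 + Ln := hx2
    rw [hm0] at h1
    have h2 : xn < d / (2 * P) + 1 + Ln := by exact_mod_cast h1
    omega
  have had : a < d := by
    calc a < P + P * xn := by rw [ha]; omega
      _ = P * (xn + 1) := by ring
      _ ≤ P * (d / P) := Nat.mul_le_mul_left _ hxup
      _ ≤ d := Nat.mul_div_le d P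
  have halow : (d : ℝ) / 2 ≤ a := by
    have h1 : d < 2 * P * (d / (2 * P) + 1) := Nat.lt_mul_div_succ d (by omega)
    have h2 : 2 * P * (d / (2 * P) + 1) ≤ 2 * P * xn := Nat.mul_le_mul_left _ hxlow
    have h3 : d ≤ 2 * a := by
      rw [ha]
      nlinarith
    have h4 : (d : ℝ) ≤ 2 * a := by exact_mod_cast h3
    linarith
  have hacop : Nat.Coprime a d := by
    rw [← Nat.isCoprime_iff_coprime]
    rw [haz]
    exact hxc
  have ha1 : 1 ≤ a := by
    have : (0 : ℝ) < a := by linarith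
    have : 0 < a := by exact_mod_cast this
    omega
  refine ⟨a, ha1, had, hacop, fun p hp hpa => ?_⟩
  set k := p / d with hk
  have hpk : p = a + k * d := by
    have := Nat.mod_add_div p d
    rw [hpa] at this
    rw [hk]
    linarith [this, mul_comm (p / d) d]
  have hap : a ≤ p := by rw [hpk]; omega
  have hlr : l ≤ d := by
    have := Real.log_le_sub_one_of_pos hdpos
    linarith
  -- `M ≤ k`
  have hMk : M ≤ k := by
    by_contra hlt
    push Not at hlt
    by_cases hkU : k ∈ U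
    · obtain ⟨r, hr, hrl, hrX, hrB, hrd⟩ := hx ⟨k, hkU⟩
      have h1 := hinv r hr hrl
      have h2 : (r : ℤ) ∣ (p : ℤ) := by
        have e : (p : ℤ) = P * ((xn : ℤ) - res r ⟨k, hkU⟩) -
            ((b0 : ℤ) + k * d) * (P * inv r - 1) := by
          rw [hpk]
          simp only [hres]
          push_cast
          rw [haz]
          ring
        rw [e]
        exact dvd_sub (Dvd.dvd.mul_left hrd _) (Dvd.dvd.mul_left h1 _)
      have h3 : r ∣ p := by exact_mod_cast h2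
      have h4 : r = p := (Nat.prime_dvd_prime_iff_eq hr hp).1 h3
      have h5 : (d : ℝ) / 2 ≤ (d : ℝ) ^ (1 / 10 : ℝ) := by
        refine halow.trans (le_trans ?_ hrX)
        rw [h4]
        exact_mod_cast hap
      have h6 : (d : ℝ) = (d : ℝ) ^ (9 / 10 : ℝ) * (d : ℝ) ^ (1 / 10 : ℝ) := by
        rw [← Real.rpow_add hdpos]; norm_num
      have h7 := hbig (9 / 10) (by norm_num)
      have h8 : (0 : ℝ) < (d : ℝ) ^ (1 / 10 : ℝ) := by positivity
      nlinarith
    · have h1 : ∃ r ∈ S, k ≡ b r [MOD r] := by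
        by_contra hcon
        push Not at hcon
        exact hkU (Finset.mem_filter.2 ⟨Finset.mem_range.2 hlt, hcon⟩)
      obtain ⟨r, hr, hkr⟩ := h1
      have h2 : r ∣ b0 + b r * d := hb0' r hr
      have h3 : r ∣ P := Finset.dvd_prod_of_mem _ hr
      have h4 : p ≡ 0 [MOD r] := by
        rw [hpk, ha]
        have e1 : b0 + P * xn + k * d ≡ b0 + 0 + b r * d [MOD r] := by
          apply Nat.ModEq.add
          · apply Nat.ModEq.add_left
            exact Nat.modEq_zero_iff_dvd.2 (Dvd.dvd.mul_right h3 _)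
          · exact hkr.mul_right d
        refine e1.trans ?_
        rw [add_zero]
        exact Nat.modEq_zero_iff_dvd.2 h2
      have h5 : r ∣ p := Nat.modEq_zero_iff_dvd.1 h4
      have h6 : r = p := (Nat.prime_dvd_prime_iff_eq (hSp r hr) hp).1 h5
      have h7 : (p : ℝ) ≤ l / 10 := by
        rw [← h6]
        exact (by exact_mod_cast hSle r hr : (r : ℝ) ≤ Ny).trans hNyle
      have h8 : (a : ℝ) ≤ p := by exact_mod_cast hap
      linarith
  -- conclusion
  have hpr : (p : ℝ) = a + k * d := by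
    have : ((p : ℕ) : ℝ) = ((a + k * d : ℕ) : ℝ) := by rw [← hpk]
    rw [this]; push_cast; ring
  have hkM : (M : ℝ) ≤ k := by exact_mod_cast hMk
  have htM : t < M + 1 := Nat.lt_floor_add_one t
  have hM0 : (0 : ℝ) ≤ M := by positivity
  have e1 : c' / 8 * (Nat.totient d : ℝ) * l * Real.log l = t / 8 * d := by
    rw [ht]; field_simp
  rw [e1, hpr]
  have h9 : t / 8 < 1 / 2 + M := by linarith
  nlinarith

end Pool.Agent.H256R2.SC.G3
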