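import Pool.Agent.H256R2.SC.V
import Pool.Agent.H256R2.SC.R
import Pool.Agent.H256R2.SC.G3

set_option autoImplicit false

/-! # Least primes in arithmetic progressions: final theorem -/

namespace Pool.Agent.H256R2.SC

theorem least_prime_progression : ∃ c : ℝ, 0 < c ∧ ∃ d₀ : ℕ, ∀ d : ℕ, d₀ ≤ d →
    ∃ a : ℕ, 1 ≤ a ∧ a < d ∧ Nat.Coprime a d ∧
      ∀ p : ℕ, p.Prime → p % d = a →
        c * (Nat.totient d : ℝ) * Real.log d * Real.log (Real.log d) < p :=
  G3.least_prime_progression_of covering greedy_all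

end Pool.Agent.H256R2.SC
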