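import Pool.Agent.H256R2.SC.Defs

/-! # The covering sieve, task G (Bonferroni), by helper818 -/

set_option autoImplicit false
set_option linter.unusedVariables false

namespace Pool.Agent.H256R2.SC

open Finset

variable {n : ℕ} {κ : Type} [Fintype κ] [DecidableEq κ]

/-- indices killing `k` -/
def hits (k : κ) (x : Col n κ) : Finset (Fin n) := univ.filter (fun i => x i = some k)

lemma SS_eq (J : ℕ) (k : κ) (x : Col n κ) :
    SS J k x = ∑ m ∈ range (J + 1), (-1 : ℝ) ^ m * ((hits k x).card.choose m : ℝ) := by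
  classical
  set T := hits k x with hT
  have hmem : ∀ s : Finset (Fin n), (∀ i ∈ s, x i = some k) ↔ s ⊆ T := by
    intro s
    constructor
    · intro h i hi
      rw [hT, hits, mem_filter]
      exact ⟨mem_univ _, h i hi⟩
    · intro h i hi
      have := h hi
      rw [hT, hits, mem_filter] at this
      exact this.2
  have h1 : SS J k x = ∑ s ∈ T.powerset, (if s.card ≤ J then (-1 : ℝ) ^ s.card else 0) := by
    unfold SS
    rw [sum_filter]
    rw [← sum_subset (subset_univ T.powerset)]
    · refine sum_congr rfl fun s hs => ?_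
      rw [if_pos ((hmem s).2 (mem_powerset.1 hs)), mul_one]
    · intro s _ hs
      rw [mem_powerset] at hs
      rw [if_neg (fun h => hs ((hmem s).1 h)), mul_zero, ite_self]
  rw [h1, sum_powerset_apply_card (fun m => if m ≤ J then (-1 : ℝ) ^ m else 0)]
  -- compare the two ranges
  have h2 : ∀ m, T.card < m → ((T.card.choose m : ℕ) : ℝ) = 0 := by
    intro m hm
    rw [Nat.choose_eq_zero_of_lt hm, Nat.cast_zero]
  have h3 : ∑ m ∈ range (T.card + 1), T.card.choose m • (if m ≤ J then (-1 : ℝ) ^ m else 0) =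
      ∑ m ∈ range (T.card + 1 + (J + 1)), (T.card.choose m : ℝ) *
        (if m ≤ J then (-1 : ℝ) ^ m else 0) := by
    rw [← sum_subset (range_subset_range.2 (Nat.le_add_right (T.card + 1) (J + 1)))]
    · refine sum_congr rfl fun m _ => ?_
      rw [nsmul_eq_mul]
    · intro m _ hm
      rw [mem_range, not_lt] at hm
      rw [h2 m (by omega), zero_mul]
  have h4 : ∑ m ∈ range (J + 1), (-1 : ℝ) ^ m * ((T.card.choose m : ℕ) : ℝ) =
      ∑ m ∈ range (T.card + 1 + (J + 1)), (T.card.choose m : ℝ) *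
        (if m ≤ J then (-1 : ℝ) ^ m else 0) := by
    rw [← sum_subset (range_subset_range.2 (Nat.le_add_left (J + 1) (T.card + 1)))]
    · refine sum_congr rfl fun m hm => ?_
      rw [mem_range] at hm
      rw [if_pos (by omega), mul_comm]
    · intro m _ hm
      rw [mem_range, not_lt] at hm
      rw [if_neg (by omega), mul_zero]
  rw [h3, h4]

lemma SS_zero (J : ℕ) (k : κ) (x : Col n κ) (h : (hits k x).card = 0) : SS J k x = 1 := by
  rw [SS_eq, h, sum_range_succ', sum_eq_zero]
  · simp
  · intro m _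
    simp

lemma SS_pos (J : ℕ) (hJ : Even J) (k : κ) (x : Col n κ) (N : ℕ) (h : (hits k x).card = N + 1) :
    SS J k x = (N.choose J : ℝ) := by
  rw [SS_eq, h]
  have h1 := Int.alternating_sum_range_choose_eq_choose (n := N) (m := J)
  have h2 : (((∑ i ∈ range (J + 1), ((-1 : ℤ) ^ i * ((N + 1).choose i : ℤ)) : ℤ)) : ℝ) =
      (((-1 : ℤ) ^ J * (N.choose J : ℤ) : ℤ) : ℝ) := by
    rw [h1]
  push_cast at h2
  rw [h2, hJ.neg_one_pow, one_mul]

lemma no_hits_iff (k : κ) (x : Col n κ) : (∀ i, x i ≠ some k) ↔ (hits k x).card = 0 := by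
  rw [card_eq_zero, hits, filter_eq_empty_iff]
  constructor
  · intro h i _
    exact h i
  · intro h i
    exact h (mem_univ i)

theorem SS_lower (J : ℕ) (hJ : Even J) (k : κ) (x : Col n κ) :
    (if ∀ i, x i ≠ some k then (1 : ℝ) else 0) ≤ SS J k x := by
  rcases Nat.eq_zero_or_pos (hits k x).card with h | h
  · rw [if_pos ((no_hits_iff k x).2 h), SS_zero J k x h]
  · rw [if_neg (fun h' => by rw [(no_hits_iff k x).1 h'] at h; exact absurd h (lt_irrefl 0))]
    obtain ⟨N, hN⟩ : ∃ N, (hits k x).card = N + 1 := ⟨(hits k x).card - 1, by omega⟩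
    rw [SS_pos J hJ k x N hN]
    exact Nat.cast_nonneg _

theorem SS_upper (J : ℕ) (hJ : Even J) (t : ℝ) (ht : 0 < t) (k : κ) (x : Col n κ) :
    SS J k x ≤ (if ∀ i, x i ≠ some k then (1 : ℝ) else 0) +
      (1 / t) ^ J * ∏ i, (if x i = some k then 1 + t else 1) := by
  have hprod : ∏ i, (if x i = some k then 1 + t else 1) = (1 + t) ^ (hits k x).card := by
    rw [prod_ite, prod_const_one, mul_one, prod_const]
    rfl
  have h0 : 0 ≤ (1 / t) ^ J * ∏ i, (if x i = some k then 1 + t else 1) := by
    rw [hprod]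
    positivity
  rcases Nat.eq_zero_or_pos (hits k x).card with h | h
  · rw [if_pos ((no_hits_iff k x).2 h), SS_zero J k x h]
    linarith
  · rw [if_neg (fun h' => by rw [(no_hits_iff k x).1 h'] at h; exact absurd h (lt_irrefl 0))]
    obtain ⟨N, hN⟩ : ∃ N, (hits k x).card = N + 1 := ⟨(hits k x).card - 1, by omega⟩
    rw [SS_pos J hJ k x N hN, zero_add, hprod, hN]
    have h1 : (N.choose J : ℝ) ≤ ((N + 1).choose J : ℝ) := by
      exact_mod_cast Nat.choose_le_choose J (Nat.le_succ N)
    have h2 : t ^ J * ((N + 1).choose J : ℝ) ≤ (1 + t) ^ (N + 1) := by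
      rcases le_or_gt J (N + 1) with hJN | hJN
      · rw [add_comm 1 t, add_pow]
        have h3 := single_le_sum (f := fun m => t ^ m * 1 ^ (N + 1 - m) *
          ((N + 1).choose m : ℝ)) (s := range (N + 1 + 1)) (fun m _ => by positivity)
          (mem_range.2 (by omega : J < N + 1 + 1))
        simpa using h3
      · rw [Nat.choose_eq_zero_of_lt hJN, Nat.cast_zero, mul_zero]
        positivity
    have h4 : (1 / t) ^ J * t ^ J = 1 := by
      rw [← mul_pow, one_div_mul_cancel ht.ne', one_pow]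
    calc (N.choose J : ℝ) ≤ ((N + 1).choose J : ℝ) := h1
      _ = (1 / t) ^ J * (t ^ J * ((N + 1).choose J : ℝ)) := by
        rw [← mul_assoc, h4, one_mul]
      _ ≤ (1 / t) ^ J * (1 + t) ^ (N + 1) := by gcongr

end Pool.Agent.H256R2.SC
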