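import Pool.Agent.H256R2.SC.Par
import Pool.Prelude.Def_F_3bded3ff

set_option autoImplicit false

/-! # Composite values of `k m + 1` (helper622) -/

namespace Pool.Agent.H256R2.SC

open Finset Filter

open scoped Classical

/-- solve the congruences `b0 * b p = -1` modulo the primes up to `n` -/
theorem crt_inv (n : ℕ) (b : ℕ → ℕ) (hb : ∀ p : ℕ, p.Prime → p ≤ n → 1 ≤ b p ∧ b p < p) :
    ∃ b0 : ℕ, b0 < primorial n ∧ ∀ p : ℕ, p.Prime → p ≤ n → p ∣ b0 * b p + 1 := by
  have h1 : ∀ p : ℕ, ∃ a : ℕ, p.Prime → p ≤ n → p ∣ a * b p + 1 := by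
    intro p
    by_cases hp : p.Prime ∧ p ≤ n
    · obtain ⟨hp, hpn⟩ := hp
      have : Fact p.Prime := ⟨hp⟩
      obtain ⟨g1, g2⟩ := hb p hp hpn
      refine ⟨(-((b p : ZMod p))⁻¹).val, fun _ _ => ?_⟩
      rw [← ZMod.natCast_eq_zero_iff]
      push_cast
      rw [ZMod.natCast_zmod_val]
      have h0 : (b p : ZMod p) ≠ 0 := by
        rw [Ne, ZMod.natCast_eq_zero_iff]
        exact Nat.not_dvd_of_pos_of_lt (by omega) g2
      field_simp
      ring
    · exact ⟨0, fun h1 h2 => absurd ⟨h1, h2⟩ hp⟩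
  choose a ha using h1
  set t := (range (n + 1)).filter Nat.Prime with ht
  have hs : ∀ i ∈ t, (fun p : ℕ => p) i ≠ 0 := fun i hi => (Finset.mem_filter.1 hi).2.ne_zero
  have hpp : Set.Pairwise (t : Set ℕ) (Function.onFun Nat.Coprime (fun p : ℕ => p)) := by
    intro p hp q hq hpq
    exact (Nat.coprime_primes (Finset.mem_filter.1 hp).2 (Finset.mem_filter.1 hq).2).2 hpq
  obtain ⟨k, hk⟩ := Nat.chineseRemainderOfFinset a (fun p : ℕ => p) t hs hpp
  refine ⟨k % primorial n, Nat.mod_lt _ (primorial_pos n), ?_⟩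
  intro p hp hpn
  have hpt : p ∈ t := Finset.mem_filter.2 ⟨Finset.mem_range.2 (by omega), hp⟩
  have h2 : k ≡ a p [MOD p] := hk p hpt
  have h3 : p ∣ primorial n := Finset.dvd_prod_of_mem _ hpt
  have h4 : k % primorial n ≡ a p [MOD p] := by
    refine Nat.ModEq.trans ?_ h2
    have : k % primorial n ≡ k [MOD primorial n] := Nat.mod_modEq _ _
    exact this.of_dvd h3
  have h5 : k % primorial n * b p + 1 ≡ a p * b p + 1 [MOD p] :=
    (h4.mul_right _).add_right 1
  exact (h5.dvd_iff dvd_rfl).2 (ha p hp hpn)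

theorem composite_multiples_of (hc : CovStmt) (hs : SurvStmt) :
    ∃ c : ℝ, 0 < c ∧ ∃ X₀ : ℝ, ∀ X : ℝ, X₀ ≤ X →
    ∃ m : ℕ, Real.sqrt X ≤ m ∧ (m : ℝ) ≤ X ∧
      ∀ k : ℕ, 1 ≤ k → (k : ℝ) ≤ c * ff X → ¬ (k * m + 1).Prime := by
  obtain ⟨c₁, hc₁, X₁, H⟩ := hc
  obtain ⟨c, hcpos, X₂, HP⟩ := params hs c₁ hc₁
  obtain ⟨X₃, H3⟩ := eventually_atTop.1 ((tendsto_rpow_atTop (show (0 : ℝ) < 7 / 20 by
    norm_num)).eventually (eventually_ge_atTop (8 : ℝ)))
  refine ⟨c, hcpos, max X₁ (max X₂ X₃), fun X hX => ?_⟩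
  have hX1 : X₁ ≤ X := (le_max_left _ _).trans hX
  have hX2 : X₂ ≤ X := ((le_max_left _ _).trans (le_max_right _ _)).trans hX
  have hX3 : X₃ ≤ X := ((le_max_right _ _).trans (le_max_right _ _)).trans hX
  obtain ⟨hX0, hL, hyL, hP, b, hb1, hb2⟩ := HP X hX2
  have h35 : (8 : ℝ) ≤ X ^ (7 / 20 : ℝ) := H3 X hX3
  have hXp : 0 < X := by linarith
  set L := ⌊c * ff X⌋₊ with hLdef
  set y := Real.log X / 10 with hy
  have hlogpos : 0 < Real.log X := Real.log_pos (by linarith)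
  have hy0 : 0 ≤ y := by positivity
  set P := primorial ⌊y⌋₊ with hPdef
  have hPpos : 0 < P := primorial_pos _
  have hPpos' : (0 : ℝ) < P := by exact_mod_cast hPpos
  have hP1 : (1 : ℝ) ≤ P := by exact_mod_cast hPpos
  -- logarithm versus square root
  have hsq : Real.sqrt X * Real.sqrt X = X := Real.mul_self_sqrt hXp.le
  have hsqrt31 : 31 ≤ Real.sqrt X := by
    apply Real.le_sqrt_of_sq_le
    linarith
  have hlogs : Real.log X ≤ 2 * (Real.sqrt X - 1) := by
    have h1 := Real.log_le_sub_one_of_pos (show 0 < Real.sqrt X by linarith)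
    rw [Real.log_sqrt hXp.le] at h1
    linarith
  have hys : y < Real.sqrt X := by rw [hy]; linarith
  have hlog2y : y < (Real.log X) ^ 2 := by
    have h1 : (2 : ℝ) ≤ Real.log X := by
      rw [Real.le_log_iff_exp_le hXp]
      have h2 : Real.exp 2 = Real.exp 1 * Real.exp 1 := by rw [← Real.exp_add]; norm_num
      have h3 := Real.exp_one_lt_d9
      have h4 := Real.exp_pos 1
      rw [h2]
      nlinarith
    rw [hy]
    nlinarith
  -- powers of X
  have hXhalf : X ^ (1 / 2 : ℝ) = Real.sqrt X := (Real.sqrt_eq_rpow X).symm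
  have hPs : (P : ℝ) ≤ Real.sqrt X := by
    refine hP.trans ?_
    rw [← hXhalf]
    exact Real.rpow_le_rpow_of_exponent_le (by linarith) (by norm_num)
  have hXt : X ^ (1 / 10 : ℝ) ≤ Real.sqrt X := by
    rw [← hXhalf]
    exact Real.rpow_le_rpow_of_exponent_le (by linarith) (by norm_num)
  have hPN : Real.sqrt X * 8 * P ≤ X := by
    have h1 : X ^ (1 / 2 : ℝ) * X ^ (7 / 20 : ℝ) * X ^ (3 / 20 : ℝ) = X := by
      rw [← Real.rpow_add hXp, ← Real.rpow_add hXp]
      norm_num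
    calc Real.sqrt X * 8 * P ≤ Real.sqrt X * X ^ (7 / 20 : ℝ) * X ^ (3 / 20 : ℝ) := by
          apply mul_le_mul _ hP hPpos'.le (by positivity)
          exact mul_le_mul_of_nonneg_left h35 (Real.sqrt_nonneg X)
      _ = X := by rw [← hXhalf, h1]
  obtain ⟨b0, hb0, hb0'⟩ := crt_inv ⌊y⌋₊ b (fun p hp hpn =>
    hb1 p hp ((Nat.le_floor_iff hy0).1 hpn))
  -- the set of the survivors
  set U := (Finset.Icc 1 L).filter (fun k => ∀ p : ℕ, p.Prime → (p : ℝ) ≤ y →
    ¬ k ≡ b p [MOD p]) with hU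
  have hUk : ∀ k : U, 1 ≤ (k : ℕ) ∧ (k : ℕ) ≤ L := fun k =>
    Finset.mem_Icc.1 (Finset.mem_filter.1 k.2).1
  have hkp : ∀ (k : U) (p : ℕ), (Real.log X) ^ 2 < p → (k : ℕ) < p := by
    intro k p hp
    have h1 : ((k : ℕ) : ℝ) ≤ L := by exact_mod_cast (hUk k).2
    have h2 : ((k : ℕ) : ℝ) < p := by linarith
    exact_mod_cast h2
  have hk0 : ∀ (k : U) (p : ℕ), p.Prime → (Real.log X) ^ 2 < p → ((k : ℕ) : ZMod p) ≠ 0 := by
    intro k p hp hlp
    rw [Ne, ZMod.natCast_eq_zero_iff]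
    exact Nat.not_dvd_of_pos_of_lt (by have := (hUk k).1; omega) (hkp k p hlp)
  have hP0 : ∀ p : ℕ, p.Prime → (Real.log X) ^ 2 < p → ((P : ℕ) : ZMod p) ≠ 0 := by
    intro p hp hlp
    rw [Ne, ZMod.natCast_eq_zero_iff, hPdef, primorial]
    intro hd
    obtain ⟨q, hq, hpq⟩ := (Prime.dvd_finset_prod_iff (Nat.prime_iff.1 hp) _).1 hd
    obtain ⟨hq1, hq2⟩ := Finset.mem_filter.1 hq
    have hpq' : p = q := (Nat.prime_dvd_prime_iff_eq hp hq2).1 hpq
    rw [← hpq', Finset.mem_range] at hq1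
    have h1 : (p : ℝ) ≤ y := (Nat.le_floor_iff hy0).1 (by omega)
    linarith
  set res : ℕ → U → ℤ := fun p k =>
    (ZMod.cast (-((((k : ℕ) : ZMod p))⁻¹ + (b0 : ZMod p)) * ((P : ℕ) : ZMod p)⁻¹) : ℤ) with hres
  have hres' : ∀ (p : ℕ) (k : U), ((res p k : ℤ) : ZMod p) =
      -((((k : ℕ) : ZMod p))⁻¹ + (b0 : ZMod p)) * ((P : ℕ) : ZMod p)⁻¹ := fun p k =>
    ZMod.intCast_zmod_cast _
  have hinj : ∀ p : ℕ, p.Prime → (Real.log X) ^ 2 < p → (p : ℝ) ≤ X ^ (1 / 10 : ℝ) →
      p ∉ (∅ : Finset ℕ) → ∀ k l : U, k ≠ l → ¬ ((p : ℤ) ∣ res p k - res p l) := by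
    intro p hp hlp _ _ k l hkl hd
    have : Fact p.Prime := ⟨hp⟩
    rw [← ZMod.intCast_zmod_eq_zero_iff_dvd, Int.cast_sub, hres', hres', sub_eq_zero] at hd
    have h1 := mul_right_cancel₀ (inv_ne_zero (hP0 p hp hlp)) hd
    rw [neg_inj, add_left_inj, inv_inj, ZMod.natCast_eq_natCast_iff] at h1
    exact hkl (Subtype.ext (Nat.ModEq.eq_of_lt_of_lt h1 (hkp k p hlp) (hkp l p hlp)))
  -- the interval
  set A' : ℤ := ⌊X / (4 * P)⌋ with hA'
  set B' : ℤ := ⌊X / (2 * P)⌋ with hB'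
  have hA1 : (A' : ℝ) ≤ X / (4 * P) := Int.floor_le _
  have hA2 : X / (4 * P) < A' + 1 := Int.lt_floor_add_one _
  have hB1 : (B' : ℝ) ≤ X / (2 * P) := Int.floor_le _
  have hB2 : X / (2 * P) < B' + 1 := Int.lt_floor_add_one _
  have hXP : 2 * Real.sqrt X ≤ X / (4 * P) := by
    rw [le_div_iff₀ (by positivity)]
    linarith
  have hXP2 : X / (2 * P) = 2 * (X / (4 * P)) := by
    field_simp
    ring
  have hN : Real.sqrt X ≤ (B' : ℝ) - A' := by linarith
  have hAB : A' ≤ B' := by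
    have : (A' : ℝ) ≤ B' := by linarith [Real.sqrt_nonneg X]
    exact_mod_cast this
  have hA0 : 0 ≤ A' := by
    apply Int.floor_nonneg.2
    positivity
  obtain ⟨x, hx, hxk⟩ := H X hX1 ∅ (by simp; positivity) U
    (by rw [Fintype.card_coe]; exact hb2) res hinj (Finset.Ioc A' B') ((B' : ℝ) - A') 1
    (by rw [hXhalf]; exact hN) zero_le_one
    (by
      have := Real.one_le_rpow (show (1 : ℝ) ≤ X by linarith) (show (0 : ℝ) ≤ 1 / 10 by norm_num)
      exact this)
    (by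
      intro q hq _ _ r
      exact count_ap A' B' hAB q (Nat.pos_of_ne_zero hq.ne_zero) r)
  obtain ⟨hx1, hx2⟩ := Finset.mem_Ioc.1 hx
  have hx0 : 0 ≤ x := by omega
  obtain ⟨x', rfl⟩ := Int.eq_ofNat_of_zero_le hx0
  have hx1' : X / (4 * P) < (x' : ℝ) := by
    have h1 : (A' : ℝ) + 1 ≤ (x' : ℝ) := by exact_mod_cast hx1
    linarith
  have hx2' : (x' : ℝ) ≤ X / (2 * P) := by
    have h1 : ((x' : ℤ) : ℝ) ≤ B' := by exact_mod_cast hx2
    have h2 : ((x' : ℤ) : ℝ) = (x' : ℝ) := by simp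
    linarith
  have hm1 : X / 4 < (P : ℝ) * x' := by
    have h1 := mul_lt_mul_of_pos_left hx1' hPpos'
    have h2 : (P : ℝ) * (X / (4 * P)) = X / 4 := by field_simp
    linarith
  have hm2 : (P : ℝ) * x' ≤ X / 2 := by
    have h1 := mul_le_mul_of_nonneg_left hx2' hPpos'.le
    have h2 : (P : ℝ) * (X / (2 * P)) = X / 2 := by field_simp
    linarith
  have hb0r : (b0 : ℝ) < P := by exact_mod_cast hb0
  have hmlow : Real.sqrt X ≤ ((b0 + P * x' : ℕ) : ℝ) := by
    push_cast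
    have : (0 : ℝ) ≤ b0 := Nat.cast_nonneg _
    nlinarith
  refine ⟨b0 + P * x', hmlow, ?_, ?_⟩
  · push_cast
    nlinarith
  · intro k hk1 hk2 hprime
    have hkL : k ≤ L := Nat.le_floor hk2
    have hbig : ∀ p : ℕ, p.Prime → (p : ℝ) ≤ Real.sqrt X → ¬ p ∣ k * (b0 + P * x') + 1 := by
      intro p hp hps hd
      have h1 : p = k * (b0 + P * x') + 1 := (Nat.prime_dvd_prime_iff_eq hp hprime).1 hd
      have h2 : (p : ℝ) ≤ ((b0 + P * x' : ℕ) : ℝ) := hps.trans hmlow
      have h3 : p ≤ b0 + P * x' := by exact_mod_cast h2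
      have h4 : 1 * (b0 + P * x') ≤ k * (b0 + P * x') := Nat.mul_le_mul_right _ hk1
      omega
    by_cases hkU : k ∈ U
    · obtain ⟨p, hp, hp1, hp2, _, hp3⟩ := hxk ⟨k, hkU⟩
      have : Fact p.Prime := ⟨hp⟩
      apply hbig p hp (hp2.trans hXt)
      rw [← ZMod.intCast_zmod_eq_zero_iff_dvd, Int.cast_sub, hres', sub_eq_zero] at hp3
      rw [← ZMod.natCast_eq_zero_iff]
      push_cast
      have e1 : ((x' : ℤ) : ZMod p) = (x' : ZMod p) := by simp
      have e2 := hk0 ⟨k, hkU⟩ p hp hp1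
      have e3 := hP0 p hp hp1
      simp only at e2 hp3
      rw [e1] at hp3
      rw [hp3]
      field_simp
      ring
    · rw [hU, Finset.mem_filter] at hkU
      push Not at hkU
      obtain ⟨p, hp, hp1, hp2⟩ := hkU (Finset.mem_Icc.2 ⟨hk1, hkL⟩)
      apply hbig p hp (hp1.trans hys.le)
      have hpn : p ≤ ⌊y⌋₊ := Nat.le_floor hp1
      have h1 := hb0' p hp hpn
      have h3 : p ∣ P := by
        rw [hPdef, primorial]
        exact Finset.dvd_prod_of_mem _ (Finset.mem_filter.2 ⟨Finset.mem_range.2 (by omega), hp⟩)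
      have h4 : k * (b0 + P * x') + 1 ≡ b p * (b0 + 0) + 1 [MOD p] := by
        refine Nat.ModEq.add_right 1 (hp2.mul ((Nat.ModEq.refl b0).add ?_))
        exact (Nat.modEq_zero_iff_dvd.2 (h3.mul_right x'))
      have h5 : b p * (b0 + 0) + 1 = b0 * b p + 1 := by ring
      rw [h5] at h4
      exact (h4.dvd_iff dvd_rfl).2 h1

theorem prime_a {m : ℕ} (hm : m ≠ 0) : (N652c0427.a m * m + 1).Prime := by
  unfold N652c0427.a
  rw [Nat.nth_zero]
  have h : {k : ℕ | (k * m + 1).Prime}.Nonempty := by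
    obtain ⟨p, hp, hp1, hp2⟩ := Nat.exists_prime_gt_modEq_one (k := m) 1 hm
    have h1 : m ∣ p - 1 := (Nat.modEq_iff_dvd' hp1.le).1 hp2.symm
    obtain ⟨k, hk⟩ := h1
    refine ⟨k, ?_⟩
    have h2 : k * m + 1 = p := by rw [mul_comm, ← hk]; omega
    change (k * m + 1).Prime
    rw [h2]
    exact hp
  exact Nat.sInf_mem h

theorem not_isBigO_of (hc : CovStmt) (hs : SurvStmt) :
    ¬ ((fun n : ℕ => (N652c0427.a n : ℝ)) =O[atTop]
      (fun n : ℕ => Real.log n * Real.log (Real.log n))) := by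
  intro hO
  obtain ⟨C, hC⟩ := hO.bound
  obtain ⟨n₀, hn₀⟩ := eventually_atTop.1 hC
  obtain ⟨c, hcpos, X₀, H⟩ := composite_multiples_of hc hs
  have key : ∀ᶠ X : ℝ in atTop, False := by
    filter_upwards [eventually_ge_atTop X₀, eventually_ge_atTop (((n₀ : ℝ) + 16) ^ 2),
      t1.eventually (eventually_ge_atTop (6 : ℝ)), t2.eventually (eventually_ge_atTop 1),
      t2.eventually ev_log_sq, t3.eventually (eventually_ge_atTop 1),
      t4.eventually (eventually_ge_atTop ((|C| + 1) / c))] with X e0 e1 e2 e3 e4 e5 e6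
    obtain ⟨m, hm1, hm2, hm3⟩ := H X e0
    have hXp : 0 < X := by
      have : 0 < ((n₀ : ℝ) + 16) ^ 2 := by positivity
      linarith
    have hm0 : (n₀ : ℝ) + 16 ≤ m := (Real.le_sqrt_of_sq_le e1).trans hm1
    have hmn : n₀ ≤ m := by
      have : (n₀ : ℝ) ≤ m := by linarith
      exact_mod_cast this
    have hmne : m ≠ 0 := by
      rintro rfl
      have : (0 : ℝ) ≤ n₀ := Nat.cast_nonneg _
      simp at hm0
      linarith
    have hp := prime_a hmne
    have ha1 : 1 ≤ N652c0427.a m := by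
      rcases Nat.eq_zero_or_pos (N652c0427.a m) with h | h
      · rw [h] at hp
        simp at hp
        exact absurd hp (by norm_num)
      · exact h
    have ha2 : c * ff X < N652c0427.a m := by
      by_contra hcon
      push Not at hcon
      exact hm3 _ ha1 hcon hp
    have hb := hn₀ m hmn
    rw [Real.norm_eq_abs, Real.norm_eq_abs, abs_of_nonneg (Nat.cast_nonneg _)] at hb
    -- the logarithms of `m`
    have hm16 : (16 : ℝ) ≤ m := by
      have : (0 : ℝ) ≤ n₀ := Nat.cast_nonneg _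
      linarith
    have hlm1 : (1 : ℝ) ≤ Real.log m := by
      rw [Real.le_log_iff_exp_le (by linarith)]
      have := Real.exp_one_lt_d9
      linarith
    have hlm2 : Real.log m ≤ Real.log X := Real.log_le_log (by linarith) hm2
    have hlm3 : 0 ≤ Real.log (Real.log m) := Real.log_nonneg hlm1
    have hlm4 : Real.log (Real.log m) ≤ Real.log (Real.log X) :=
      Real.log_le_log (by linarith) hlm2
    have h1 : Real.log m * Real.log (Real.log m) ≤ Real.log X * Real.log (Real.log X) :=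
      mul_le_mul hlm2 hlm4 hlm3 (by linarith)
    have h2 : C * |Real.log m * Real.log (Real.log m)| ≤
        |C| * (Real.log X * Real.log (Real.log X)) := by
      rw [abs_of_nonneg (mul_nonneg (by linarith) hlm3)]
      have h3 : 0 ≤ Real.log m * Real.log (Real.log m) := mul_nonneg (by linarith) hlm3
      calc C * (Real.log m * Real.log (Real.log m)) ≤
            |C| * (Real.log m * Real.log (Real.log m)) :=
            mul_le_mul_of_nonneg_right (le_abs_self C) h3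
        _ ≤ _ := mul_le_mul_of_nonneg_left h1 (abs_nonneg C)
    -- lower bound for `ff X`
    have h4 : (|C| + 1) * (Real.log X * Real.log (Real.log X)) ≤ c * ff X := by
      unfold ff
      set l1 := Real.log X
      set l2 := Real.log l1
      set l3 := Real.log l2
      set l4 := Real.log l3
      have h5 : |C| + 1 ≤ c * l4 := by
        have := (div_le_iff₀ hcpos).1 e6
        linarith
      have h6 : 0 < l3 ^ 2 := by positivity
      rw [← mul_div_assoc, le_div_iff₀ h6]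
      have h7 : (|C| + 1) * l3 ^ 2 ≤ c * l4 * l2 := by
        have h8 : (|C| + 1) * l3 ^ 2 ≤ (|C| + 1) * (l2 / 2) :=
          mul_le_mul_of_nonneg_left e4 (by positivity)
        have h9 : (|C| + 1) * l2 ≤ c * l4 * l2 := mul_le_mul_of_nonneg_right h5 (by linarith)
        have h10 : 0 ≤ (|C| + 1) * l2 := by positivity
        linarith
      have h11 : 0 ≤ l1 * l2 := mul_nonneg (by linarith) (by linarith)
      calc (|C| + 1) * (l1 * l2) * l3 ^ 2 = (l1 * l2) * ((|C| + 1) * l3 ^ 2) := by ring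
        _ ≤ (l1 * l2) * (c * l4 * l2) := mul_le_mul_of_nonneg_left h7 h11
        _ = c * (l1 * l2 ^ 2 * l4) := by ring
    have h12 : 0 < Real.log X * Real.log (Real.log X) := mul_pos (by linarith) (by linarith)
    nlinarith
  obtain ⟨X, hX⟩ := key.exists
  exact hX

end Pool.Agent.H256R2.SC
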