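import Pool.Agent.H256R2.SC.H3

set_option autoImplicit false
set_option linter.unusedSectionVars false

/-! # Task H2 (helper238): levels of `VV` and `SS` -/

namespace Pool.Agent.H256R2.SC

open Finset

variable {n : ℕ} {κ : Type} [Fintype κ] [DecidableEq κ]

/-- coefficients of `psi1` in the local elementary events -/
noncomputable def cf (g : ℝ) (a b : Option κ) : ℝ :=
  match a with
  | none => if b = none then 1 else 0
  | some k => if b = some k then 1 else if b = none then -g else 0

theorem psi1_eq (g : ℝ) (a c : Option κ) :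
    psi1 g a c = ∑ b, cf g a b * (if b ≠ none → c = b then (1 : ℝ) else 0) := by
  cases a with
  | none =>
    simp [psi1, cf, Fintype.sum_option]
  | some k =>
    simp only [psi1, cf, Fintype.sum_option]
    rw [Finset.sum_eq_single k]
    · simp
      ring
    · intro b _ hb
      simp [hb]
    · intro h
      exact absurd (Finset.mem_univ k) h

theorem sum_abs_cf (g : ℝ) (hg0 : 0 ≤ g) (hg1 : g ≤ 1) (a : Option κ) :
    ∑ b, |cf g a b| ≤ (if a ≠ none then 2 else 1) := by
  cases a with
  | none =>
    simp [cf, Fintype.sum_option]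
  | some k =>
    simp only [cf, Fintype.sum_option]
    have h1 : ∑ x : κ, |(if (some x : Option κ) = some k then (1 : ℝ) else
        if (some x : Option κ) = none then -g else 0)| = 1 := by
      rw [Finset.sum_eq_single k]
      · simp
      · intro b _ hb
        simp [hb]
      · intro h
        exact absurd (Finset.mem_univ k) h
    rw [h1]
    simp [abs_of_nonneg hg0]
    linarith

theorem psi_eq (g : Fin n → ℝ) (D x : Col n κ) :
    psi g D x = ∑ E : Col n κ, (∏ i, cf (g i) (D i) (E i)) * ind E x := by
  unfold psi
  have h1 : ∀ i, psi1 (g i) (D i) (x i) =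
      ∑ b, cf (g i) (D i) b * (if b ≠ none → x i = b then (1 : ℝ) else 0) :=
    fun i => psi1_eq (g i) (D i) (x i)
  rw [Finset.prod_congr rfl (fun i _ => h1 i)]
  rw [Finset.prod_univ_sum, Fintype.piFinset_univ]
  apply Finset.sum_congr rfl
  intro E _
  rw [ind_eq_prod, Finset.prod_mul_distrib]

theorem sum_abs_prod_cf (g : Fin n → ℝ) (hg0 : ∀ i, 0 ≤ g i) (hg1 : ∀ i, g i ≤ 1)
    (D : Col n κ) :
    ∑ E : Col n κ, |∏ i, cf (g i) (D i) (E i)| ≤
      2 ^ (univ.filter (fun i => D i ≠ none)).card := by
  have h1 : ∑ E : Col n κ, |∏ i, cf (g i) (D i) (E i)| =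
      ∏ i, ∑ b, |cf (g i) (D i) b| := by
    rw [Finset.prod_univ_sum, Fintype.piFinset_univ]
    apply Finset.sum_congr rfl
    intro E _
    rw [Finset.abs_prod]
  rw [h1]
  calc ∏ i, ∑ b, |cf (g i) (D i) b|
      ≤ ∏ i, (if D i ≠ none then (2 : ℝ) else 1) := by
        apply Finset.prod_le_prod
        · intro i _
          exact Finset.sum_nonneg (fun b _ => abs_nonneg _)
        · intro i _
          exact sum_abs_cf (g i) (hg0 i) (hg1 i) (D i)
    _ = 2 ^ (univ.filter (fun i => D i ≠ none)).card := by
        rw [Finset.prod_ite, Finset.prod_const_one, mul_one, Finset.prod_const]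

theorem nu1_ge_one (p : ℝ) (hp : 1 ≤ p) (a : Option κ) : 1 ≤ nu1 p a := by
  cases a with
  | none => simp [nu1]
  | some k => simpa [nu1] using hp

theorem Lv_VV (p g : Fin n → ℝ) (hp : ∀ i, 1 ≤ p i) (hg0 : ∀ i, 0 ≤ g i) (hg1 : ∀ i, g i ≤ 1)
    (y : Col n κ → ℝ) (hy : ∀ D, |y D| ≤ 1) (Q : ℝ) (hQ : ∀ D, y D ≠ 0 → qq p D ≤ Q) :
    Lv p Q (∑ D : Col n κ with qq p D ≤ Q, 2 ^ (univ.filter (fun i => D i ≠ none)).card)
      (VV g y) := by
  refine ⟨fun E => ∑ D, y D * ∏ i, cf (g i) (D i) (E i), ?_, ?_, ?_⟩
  · intro x
    unfold VV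
    simp_rw [psi_eq, Finset.mul_sum, Finset.sum_mul]
    rw [Finset.sum_comm]
    apply Finset.sum_congr rfl
    intro E _
    apply Finset.sum_congr rfl
    intro D _
    ring
  · calc ∑ E : Col n κ, |∑ D, y D * ∏ i, cf (g i) (D i) (E i)|
        ≤ ∑ E : Col n κ, ∑ D : Col n κ, |y D| * |∏ i, cf (g i) (D i) (E i)| := by
          apply Finset.sum_le_sum
          intro E _
          refine (Finset.abs_sum_le_sum_abs _ _).trans (le_of_eq ?_)
          apply Finset.sum_congr rfl
          intro D _
          rw [abs_mul]
      _ = ∑ D : Col n κ, |y D| * ∑ E : Col n κ, |∏ i, cf (g i) (D i) (E i)| := by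
          rw [Finset.sum_comm]
          apply Finset.sum_congr rfl
          intro D _
          rw [Finset.mul_sum]
      _ ≤ ∑ D : Col n κ, (if qq p D ≤ Q then
            (2 : ℝ) ^ (univ.filter (fun i => D i ≠ none)).card else 0) := by
          apply Finset.sum_le_sum
          intro D _
          have h1 := sum_abs_prod_cf g hg0 hg1 D
          have h0 : 0 ≤ ∑ E : Col n κ, |∏ i, cf (g i) (D i) (E i)| :=
            Finset.sum_nonneg (fun E _ => abs_nonneg _)
          split_ifs with hD
          · calc |y D| * ∑ E : Col n κ, |∏ i, cf (g i) (D i) (E i)|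
                ≤ 1 * ∑ E : Col n κ, |∏ i, cf (g i) (D i) (E i)| :=
                  mul_le_mul_of_nonneg_right (hy D) h0
              _ ≤ _ := by rw [one_mul]; exact h1
          · have h2 : y D = 0 := by
              by_contra h3
              exact hD (hQ D h3)
            rw [h2]
            simp
      _ = _ := by rw [Finset.sum_filter]
  · intro E hE
    have h1 : ∃ D, y D * ∏ i, cf (g i) (D i) (E i) ≠ 0 := by
      by_contra h
      push Not at h
      exact hE (Finset.sum_eq_zero (fun D _ => h D))
    obtain ⟨D, hD⟩ := h1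
    have h2 : y D ≠ 0 := left_ne_zero_of_mul hD
    have h3 : ∏ i, cf (g i) (D i) (E i) ≠ 0 := right_ne_zero_of_mul hD
    refine le_trans ?_ (hQ D h2)
    unfold qq
    apply Finset.prod_le_prod
    · intro i _
      exact le_trans zero_le_one (nu1_ge_one (p i) (hp i) (E i))
    · intro i _
      have h4 : cf (g i) (D i) (E i) ≠ 0 := by
        intro h5
        exact h3 (Finset.prod_eq_zero (Finset.mem_univ i) h5)
      have h6 : E i = D i ∨ E i = none := by
        unfold cf at h4
        cases hDi : D i with
        | none =>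
          rw [hDi] at h4
          by_cases h7 : E i = none
          · right; exact h7
          · simp [h7] at h4
        | some k =>
          rw [hDi] at h4
          by_cases h7 : E i = some k
          · left; exact h7
          · by_cases h8 : E i = none
            · right; exact h8
            · simp [h7, h8] at h4
      rcases h6 with h6 | h6
      · rw [h6]
      · rw [h6]
        exact nu1_ge_one (p i) (hp i) (D i)

/-- the colouring with colour `k` exactly on `s` -/
def onS (k : κ) (s : Finset (Fin n)) : Col n κ := fun i => if i ∈ s then some k else none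

theorem ind_onS (k : κ) (s : Finset (Fin n)) (x : Col n κ) :
    ind (onS k s) x = (if ∀ i ∈ s, x i = some k then (1 : ℝ) else 0) := by
  unfold ind onS
  congr 1
  apply propext
  constructor
  · intro h i hi
    have := h i (by simp [hi])
    simpa [hi] using this
  · intro h i hi
    by_cases h1 : i ∈ s
    · simpa [h1] using h i h1
    · simp [h1] at hi

theorem card_small (n J : ℕ) :
    (univ.filter (fun s : Finset (Fin n) => s.card ≤ J)).card ≤ (n + 1) ^ J := by
  induction J with
  | zero =>
    have h1 : (univ.filter (fun s : Finset (Fin n) => s.card ≤ 0)) = {∅} := by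
      ext s
      simp
    rw [h1]
    simp
  | succ J ih =>
    have h1 : (univ.filter (fun s : Finset (Fin n) => s.card ≤ J + 1)) ⊆
        (univ.filter (fun s : Finset (Fin n) => s.card ≤ J)) ∪ powersetCard (J + 1) univ := by
      intro s hs
      simp only [mem_filter, mem_univ, true_and, mem_union, mem_powersetCard, subset_univ] at hs ⊢
      omega
    have h2 := (Finset.card_le_card h1).trans (Finset.card_union_le _ _)
    rw [Finset.card_powersetCard, Finset.card_univ, Fintype.card_fin] at h2
    have h3 : n.choose (J + 1) ≤ n ^ (J + 1) := Nat.choose_le_pow n (J + 1)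
    have h4 : n ^ (J + 1) ≤ n * (n + 1) ^ J := by
      rw [pow_succ, mul_comm]
      exact Nat.mul_le_mul_left n (Nat.pow_le_pow_left (Nat.le_succ n) J)
    calc (univ.filter (fun s : Finset (Fin n) => s.card ≤ J + 1)).card
        ≤ (n + 1) ^ J + n * (n + 1) ^ J := by omega
      _ = (n + 1) ^ (J + 1) := by ring

theorem Lv_SS (p : Fin n → ℝ) (hp : ∀ i, 1 ≤ p i) (z : ℝ) (hz : ∀ i, p i ≤ z) (hz1 : 1 ≤ z)
    (J : ℕ) (k : κ) : Lv p (z ^ J) ((n + 1) ^ J) (SS J k : Col n κ → ℝ) := by
  refine ⟨fun E => ∑ s : Finset (Fin n) with s.card ≤ J,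
    (-1 : ℝ) ^ s.card * (if onS k s = E then 1 else 0), ?_, ?_, ?_⟩
  · intro x
    unfold SS
    simp_rw [Finset.sum_mul]
    rw [Finset.sum_comm]
    apply Finset.sum_congr rfl
    intro s _
    rw [Finset.sum_eq_single (onS k s)]
    · rw [ind_onS]
      simp
    · intro E _ hE
      rw [if_neg (Ne.symm hE)]
      simp
    · intro h
      exact absurd (Finset.mem_univ _) h
  · calc ∑ E : Col n κ, |∑ s : Finset (Fin n) with s.card ≤ J,
          (-1 : ℝ) ^ s.card * (if onS k s = E then 1 else 0)|
        ≤ ∑ E : Col n κ, ∑ s : Finset (Fin n) with s.card ≤ J,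
          (if onS k s = E then (1 : ℝ) else 0) := by
          apply Finset.sum_le_sum
          intro E _
          refine (Finset.abs_sum_le_sum_abs _ _).trans (le_of_eq ?_)
          apply Finset.sum_congr rfl
          intro s _
          rw [abs_mul, abs_pow, abs_neg, abs_one, one_pow, one_mul]
          split_ifs <;> simp
      _ = ∑ s : Finset (Fin n) with s.card ≤ J, ∑ E : Col n κ,
          (if onS k s = E then (1 : ℝ) else 0) := Finset.sum_comm
      _ = ∑ s : Finset (Fin n) with s.card ≤ J, (1 : ℝ) := by
          apply Finset.sum_congr rfl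
          intro s _
          rw [Finset.sum_ite_eq]
          simp
      _ = ((univ.filter (fun s : Finset (Fin n) => s.card ≤ J)).card : ℝ) := by
          rw [Finset.sum_const, nsmul_eq_mul, mul_one]
      _ ≤ ((n : ℝ) + 1) ^ J := by
          have h := card_small n J
          have h' : (((univ.filter (fun s : Finset (Fin n) => s.card ≤ J)).card : ℕ) : ℝ) ≤
              (((n + 1) ^ J : ℕ) : ℝ) := by exact_mod_cast h
          push_cast at h'
          exact h'
  · intro E hE
    have h1 : ∃ s ∈ (univ.filter (fun s : Finset (Fin n) => s.card ≤ J)),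
        (-1 : ℝ) ^ s.card * (if onS k s = E then 1 else 0) ≠ 0 := by
      by_contra h
      push Not at h
      exact hE (Finset.sum_eq_zero h)
    obtain ⟨s, hs1, hs2⟩ := h1
    have hs3 : onS k s = E := by
      by_contra h
      rw [if_neg h] at hs2
      simp at hs2
    simp only [mem_filter, mem_univ, true_and] at hs1
    rw [← hs3]
    have h2 : qq p (onS k s) = ∏ i ∈ s, p i := by
      unfold qq onS
      rw [← Finset.prod_filter_mul_prod_filter_not univ (fun i => i ∈ s)]
      have h3 : ∏ i with i ∉ s, nu1 (p i) (if i ∈ s then some k else none) = 1 := by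
        apply Finset.prod_eq_one
        intro i hi
        simp only [mem_filter, mem_univ, true_and] at hi
        simp [hi, nu1]
      rw [h3, mul_one, Finset.filter_mem_eq_inter, Finset.univ_inter]
      apply Finset.prod_congr rfl
      intro i hi
      simp [hi, nu1]
    rw [h2]
    calc ∏ i ∈ s, p i ≤ ∏ i ∈ s, z := by
          apply Finset.prod_le_prod
          · intro i _
            exact le_trans zero_le_one (hp i)
          · intro i _
            exact hz i
      _ = z ^ s.card := by rw [Finset.prod_const]
      _ ≤ z ^ J := pow_le_pow_right₀ hz1 hs1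

end Pool.Agent.H256R2.SC
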