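import Pool.Agent.H256R2.SC.Defs

set_option autoImplicit false

/-! # Task I: number of assignments of bounded size -/

namespace Pool.Agent.H256R2.SC

open Finset

variable {n : ℕ} {κ : Type} [Fintype κ] [DecidableEq κ]

theorem count_assign (p : Fin n → ℝ) (hp : ∀ i, 1 ≤ p i)
    (hs : 2 * (Fintype.card κ : ℝ) * ∑ i, 1 / (p i) ^ 2 ≤ 1) (Q : ℝ) (hQ : 0 < Q) :
    ∑ D : Col n κ with qq p D ≤ Q, (2 : ℝ) ^ (univ.filter (fun i => D i ≠ none)).card ≤
      3 * Q ^ 2 := by
  have hp0 : ∀ i, 0 < p i := fun i => lt_of_lt_of_le one_pos (hp i)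
  have hnu : ∀ i (c : Option κ), 1 ≤ nu1 (p i) c := by
    intro i c
    cases c with
    | none => simp [nu1]
    | some k => simpa [nu1] using hp i
  have hqq : ∀ D : Col n κ, 0 < qq p D := fun D =>
    Finset.prod_pos fun i _ => lt_of_lt_of_le one_pos (hnu i _)
  set φ : Fin n → Option κ → ℝ := fun i c => (if c ≠ none then 2 else 1) / (nu1 (p i) c) ^ 2
    with hφ
  have hterm : ∀ D : Col n κ, (2 : ℝ) ^ (univ.filter (fun i => D i ≠ none)).card *
      (Q / qq p D) ^ 2 = Q ^ 2 * ∏ i, φ i (D i) := by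
    intro D
    have h2 : (2 : ℝ) ^ (univ.filter (fun i => D i ≠ none)).card =
        ∏ i, (if D i ≠ none then (2 : ℝ) else 1) := by
      rw [Finset.prod_ite]
      simp
    simp only [hφ]
    rw [Finset.prod_div_distrib, ← h2, Finset.prod_pow, ← qq, div_pow]
    ring
  have hnn : ∀ D : Col n κ, 0 ≤ (2 : ℝ) ^ (univ.filter (fun i => D i ≠ none)).card *
      (Q / qq p D) ^ 2 := fun D => by positivity
  calc ∑ D : Col n κ with qq p D ≤ Q, (2 : ℝ) ^ (univ.filter (fun i => D i ≠ none)).card
      ≤ ∑ D : Col n κ with qq p D ≤ Q, (2 : ℝ) ^ (univ.filter (fun i => D i ≠ none)).card *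
          (Q / qq p D) ^ 2 := by
        apply Finset.sum_le_sum
        intro D hD
        have hD' : qq p D ≤ Q := (Finset.mem_filter.mp hD).2
        have h1 : 1 ≤ Q / qq p D := (one_le_div (hqq D)).mpr hD'
        have h2 : (1 : ℝ) ≤ (Q / qq p D) ^ 2 := one_le_pow₀ h1
        exact le_mul_of_one_le_right (by positivity) h2
    _ ≤ ∑ D : Col n κ, (2 : ℝ) ^ (univ.filter (fun i => D i ≠ none)).card *
          (Q / qq p D) ^ 2 :=
        Finset.sum_le_sum_of_subset_of_nonneg (Finset.filter_subset _ _) fun D _ _ => hnn D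
    _ = Q ^ 2 * ∏ i, ∑ c, φ i c := by
        rw [Finset.prod_univ_sum, Fintype.piFinset_univ, Finset.mul_sum]
        exact Finset.sum_congr rfl fun D _ => hterm D
    _ ≤ Q ^ 2 * ∏ i, Real.exp (2 * (Fintype.card κ : ℝ) * (1 / (p i) ^ 2)) := by
        apply mul_le_mul_of_nonneg_left _ (by positivity)
        apply Finset.prod_le_prod
        · intro i _
          apply Finset.sum_nonneg
          intro c _
          simp only [hφ]
          positivity
        · intro i _
          have : ∑ c, φ i c = 1 + 2 * (Fintype.card κ : ℝ) * (1 / (p i) ^ 2) := by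
            rw [Fintype.sum_option]
            simp [hφ, nu1]
            ring
          rw [this, add_comm]
          exact Real.add_one_le_exp _
    _ = Q ^ 2 * Real.exp (2 * (Fintype.card κ : ℝ) * ∑ i, 1 / (p i) ^ 2) := by
        rw [← Real.exp_sum, Finset.mul_sum]
    _ ≤ Q ^ 2 * Real.exp 1 := by
        apply mul_le_mul_of_nonneg_left _ (by positivity)
        exact Real.exp_le_exp.mpr hs
    _ ≤ Q ^ 2 * 3 := by
        apply mul_le_mul_of_nonneg_left _ (by positivity)
        exact Real.exp_one_lt_three.le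
    _ = 3 * Q ^ 2 := by ring

end Pool.Agent.H256R2.SC
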