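import Pool.Agent.H256R2.SC.Defs
import Pool.Agent.Helper256.KM.Mertens

set_option autoImplicit false

/-! # Task L: lower bound for the sums over rough squarefree numbers -/

namespace Pool.Agent.H256R2.SC

open Finset

open scoped Classical

/-- sieving primes: `y₁ < p ≤ z`, `p ∉ B` -/
noncomputable def PS (y₁ z : ℝ) (B : Finset ℕ) : Finset ℕ :=
  (Finset.Icc 1 ⌊z⌋₊).filter (fun p => p.Prime ∧ y₁ < (p : ℝ) ∧ p ∉ B)

namespace LL

/-- `n ↦ 1/n` -/
noncomputable def inv : ℕ →* ℝ where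
  toFun n := (n : ℝ)⁻¹
  map_one' := by simp
  map_mul' := by intro a b; push_cast; rw [mul_inv]

theorem euler_le (P A : Finset ℕ) (hA : ∀ a ∈ A, a ∈ Nat.factoredNumbers P) :
    ∑ a ∈ A, (a : ℝ)⁻¹ ≤ ∏ p ∈ P with p.Prime, (1 - (p : ℝ)⁻¹)⁻¹ := by
  have h := EulerProduct.summable_and_hasSum_factoredNumbers_prod_filter_prime_geometric
    (f := inv) (fun {p} hp => by
      show ‖(p : ℝ)⁻¹‖ < 1
      rw [norm_inv, Real.norm_natCast]
      exact inv_lt_one_of_one_lt₀ (by exact_mod_cast hp.one_lt)) P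
  obtain ⟨_, h2⟩ := h
  have h3 : ∑ a ∈ A, (a : ℝ)⁻¹ = ∑ a ∈ A.attach.image (fun a => (⟨a.1, hA a.1 a.2⟩ : Nat.factoredNumbers P)),
      inv a := by
    rw [Finset.sum_image]
    · exact (Finset.sum_attach A (fun a => (a : ℝ)⁻¹)).symm
    · intro a _ b _ hab
      have h4 := congrArg (fun x : Nat.factoredNumbers P => (x : ℕ)) hab
      exact Subtype.ext h4
  rw [h3]
  exact sum_le_hasSum _ (fun a _ => by show 0 ≤ ((a : ℕ) : ℝ)⁻¹; positivity) h2

/-- the decomposition `m = a l² s` -/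
theorem decomp (P : Finset ℕ) (m : ℕ) (hm : 1 ≤ m) : ∃ a l : ℕ, ∃ s : Finset ℕ,
    a ∈ Nat.factoredNumbers P ∧ 1 ≤ a ∧ 1 ≤ l ∧ (∀ p ∈ s, p.Prime ∧ p ∉ P) ∧
    m = a * l ^ 2 * ∏ p ∈ s, p := by
  set a := ∏ p ∈ m.primeFactors with p ∈ P, p ^ (m.factorization p) with ha
  set b := ∏ p ∈ m.primeFactors with ¬ (p ∈ P), p ^ (m.factorization p) with hb
  have hab : a * b = m := by
    rw [ha, hb, Finset.prod_filter_mul_prod_filter_not]
    exact Nat.prod_factorization_pow_eq_self (by omega)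
  have ha0 : a ≠ 0 := by rintro h; rw [h, zero_mul] at hab; omega
  have hb0 : b ≠ 0 := by rintro h; rw [h, mul_zero] at hab; omega
  have haP : a ∈ Nat.factoredNumbers P := by
    rw [Nat.mem_factoredNumbers']
    intro q hq hqa
    rw [ha, Prime.dvd_finsetProd_iff hq.prime] at hqa
    obtain ⟨p, hp, hqp⟩ := hqa
    rw [Finset.mem_filter, Nat.mem_primeFactors] at hp
    have := (Nat.prime_dvd_prime_iff_eq hq hp.1.1).1 (hq.dvd_of_dvd_pow hqp)
    rw [this]; exact hp.2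
  have hbP : ∀ q : ℕ, q.Prime → q ∣ b → q ∉ P := by
    intro q hq hqb
    rw [hb, Prime.dvd_finsetProd_iff hq.prime] at hqb
    obtain ⟨p, hp, hqp⟩ := hqb
    rw [Finset.mem_filter, Nat.mem_primeFactors] at hp
    have := (Nat.prime_dvd_prime_iff_eq hq hp.1.1).1 (hq.dvd_of_dvd_pow hqp)
    rw [this]; exact hp.2
  obtain ⟨s', l, hl, hs'⟩ := Nat.sq_mul_squarefree b
  have hl0 : l ≠ 0 := by rintro h; rw [h] at hl; simp at hl; exact hb0 hl.symm
  refine ⟨a, l, s'.primeFactors, haP, Nat.pos_of_ne_zero ha0, Nat.pos_of_ne_zero hl0, ?_, ?_⟩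
  · intro p hp
    rw [Nat.mem_primeFactors] at hp
    exact ⟨hp.1, hbP p hp.1 (hp.2.1.trans ⟨l ^ 2, by rw [← hl]; ring⟩)⟩
  · rw [Nat.prod_primeFactors_of_squarefree hs', mul_assoc, hl, hab]

theorem sum_sq_le (N : ℕ) : ∑ l ∈ Finset.Icc 1 N, ((l : ℝ) ^ 2)⁻¹ ≤ 2 := by
  have h : ∀ N : ℕ, 1 ≤ N → ∑ l ∈ Finset.Icc 1 N, ((l : ℝ) ^ 2)⁻¹ ≤ 2 - 1 / N := by
    intro N hN
    induction N, hN using Nat.le_induction with
    | base => simp; norm_num
    | succ n hn ih =>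
      rw [Finset.sum_Icc_succ_top (by omega)]
      have hn' : (1 : ℝ) ≤ n := by exact_mod_cast hn
      have : (((n + 1 : ℕ) : ℝ) ^ 2)⁻¹ ≤ 1 / n - 1 / ((n + 1 : ℕ) : ℝ) := by
        push_cast
        rw [div_sub_div _ _ (by positivity) (by positivity), inv_eq_one_div,
          div_le_div_iff₀ (by positivity) (by positivity)]
        nlinarith
      linarith
  rcases Nat.eq_zero_or_pos N with rfl | hN
  · simp
  · have := h N hN
    have : (0 : ℝ) ≤ 1 / N := by positivity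
    linarith [h N hN]

/-- the combinatorial inequality -/
theorem main_ineq (y₁ z x : ℝ) (B : Finset ℕ) (hxz : x ≤ z) (hx : 1 ≤ x) (P : Finset ℕ)
    (hP : ∀ p : ℕ, p.Prime → p ∉ P → y₁ < (p : ℝ) ∧ p ∉ B) :
    ∑ m ∈ Finset.Icc 1 ⌊x⌋₊, (m : ℝ)⁻¹ ≤
      (∏ p ∈ P with p.Prime, (1 - (p : ℝ)⁻¹)⁻¹) * 2 *
      (1 + ∑ s ∈ ((PS y₁ z B).powerset.filter
        (fun s : Finset ℕ => s.Nonempty ∧ ∏ p ∈ s, (p : ℝ) ≤ x)), ∏ p ∈ s, 1 / (p : ℝ)) := by
  have hdec : ∀ m : ℕ, ∃ t : ℕ × ℕ × Finset ℕ, 1 ≤ m → (t.1 ∈ Nat.factoredNumbers P ∧ 1 ≤ t.1 ∧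
      1 ≤ t.2.1 ∧ (∀ p ∈ t.2.2, p.Prime ∧ p ∉ P) ∧ m = t.1 * t.2.1 ^ 2 * ∏ p ∈ t.2.2, p) := by
    intro m
    by_cases hm : 1 ≤ m
    · obtain ⟨a, l, s, h⟩ := decomp P m hm
      exact ⟨(a, l, s), fun _ => h⟩
    · exact ⟨(0, 0, ∅), fun h => absurd h hm⟩
  choose φ hφ using hdec
  set N := ⌊x⌋₊ with hN
  set A : Finset ℕ := (Finset.Icc 1 N).filter (fun a => a ∈ Nat.factoredNumbers P) with hA
  set W : Finset (Finset ℕ) := (PS y₁ z B).powerset.filter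
    (fun s : Finset ℕ => ∏ p ∈ s, (p : ℝ) ≤ x) with hW
  set F : ℕ × ℕ × Finset ℕ → ℝ := fun t => (t.1 : ℝ)⁻¹ * ((((t.2.1 : ℕ) : ℝ) ^ 2)⁻¹ *
    ∏ p ∈ t.2.2, 1 / (p : ℝ)) with hF
  have hprod : ∀ m ∈ Finset.Icc 1 N, ∏ p ∈ (φ m).2.2, p ∣ m := by
    intro m hm
    rw [Finset.mem_Icc] at hm
    obtain ⟨_, _, _, _, h5⟩ := hφ m hm.1
    exact ⟨(φ m).1 * (φ m).2.1 ^ 2, by conv_lhs => rw [h5]
                                       ring⟩
  have h1 : ∑ m ∈ Finset.Icc 1 N, (m : ℝ)⁻¹ = ∑ m ∈ Finset.Icc 1 N, F (φ m) := by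
    refine Finset.sum_congr rfl fun m hm => ?_
    rw [Finset.mem_Icc] at hm
    obtain ⟨_, _, _, _, h5⟩ := hφ m hm.1
    conv_lhs => rw [h5]
    rw [hF]
    push_cast
    simp only [one_div, Finset.prod_inv_distrib]
    rw [mul_inv, mul_inv, mul_assoc]
  have hinj : ∀ m ∈ Finset.Icc 1 N, ∀ m' ∈ Finset.Icc 1 N, φ m = φ m' → m = m' := by
    intro m hm m' hm' h
    rw [Finset.mem_Icc] at hm hm'
    rw [(hφ m hm.1).2.2.2.2, (hφ m' hm'.1).2.2.2.2, h]
  have h2 : ∑ m ∈ Finset.Icc 1 N, F (φ m) = ∑ t ∈ (Finset.Icc 1 N).image φ, F t :=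
    (Finset.sum_image (fun m hm m' hm' h => hinj m hm m' hm' h)).symm
  have hsub : (Finset.Icc 1 N).image φ ⊆ A ×ˢ (Finset.Icc 1 N ×ˢ W) := by
    intro t ht
    rw [Finset.mem_image] at ht
    obtain ⟨m, hm, rfl⟩ := ht
    have hmm := hm
    rw [Finset.mem_Icc] at hm
    obtain ⟨g1, g2, g3, g4, g5⟩ := hφ m hm.1
    have hmx : (m : ℝ) ≤ x := (Nat.le_floor_iff (by linarith)).1 hm.2
    have d1 : (φ m).1 ∣ m := ⟨(φ m).2.1 ^ 2 * ∏ p ∈ (φ m).2.2, p, by conv_lhs => rw [g5]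
                                                                     ring⟩
    have d2 : (φ m).2.1 ∣ m := ⟨(φ m).1 * (φ m).2.1 * ∏ p ∈ (φ m).2.2, p, by conv_lhs => rw [g5]
                                                                             ring⟩
    rw [Finset.mem_product, Finset.mem_product, hA, Finset.mem_filter, Finset.mem_Icc,
      Finset.mem_Icc, hW, Finset.mem_filter, Finset.mem_powerset]
    refine ⟨⟨⟨g2, (Nat.le_of_dvd hm.1 d1).trans hm.2⟩, g1⟩,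
      ⟨g3, (Nat.le_of_dvd hm.1 d2).trans hm.2⟩, ?_, ?_⟩
    · intro p hp
      obtain ⟨hpp, hpP⟩ := g4 p hp
      obtain ⟨q1, q2⟩ := hP p hpp hpP
      have hpm : p ≤ m := Nat.le_of_dvd hm.1 ((Finset.dvd_prod_of_mem _ hp).trans (hprod m hmm))
      rw [PS, Finset.mem_filter, Finset.mem_Icc]
      refine ⟨⟨hpp.one_lt.le, Nat.le_floor ?_⟩, hpp, q1, q2⟩
      have : (p : ℝ) ≤ m := by exact_mod_cast hpm
      linarith
    · have : ((∏ p ∈ (φ m).2.2, p : ℕ) : ℝ) ≤ m := by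
        exact_mod_cast Nat.le_of_dvd hm.1 (hprod m hmm)
      push_cast at this
      linarith
  have h3 : ∑ t ∈ (Finset.Icc 1 N).image φ, F t ≤ ∑ t ∈ A ×ˢ (Finset.Icc 1 N ×ˢ W), F t := by
    refine Finset.sum_le_sum_of_subset_of_nonneg hsub fun t _ _ => ?_
    rw [hF]; positivity
  have h4 : ∑ t ∈ A ×ˢ (Finset.Icc 1 N ×ˢ W), F t =
      (∑ a ∈ A, (a : ℝ)⁻¹) * ((∑ l ∈ Finset.Icc 1 N, ((l : ℝ) ^ 2)⁻¹) *
        ∑ s ∈ W, ∏ p ∈ s, 1 / (p : ℝ)) := by
    rw [Finset.sum_product, Finset.sum_mul]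
    refine Finset.sum_congr rfl fun a _ => ?_
    rw [Finset.sum_product, Finset.sum_mul, Finset.mul_sum]
    refine Finset.sum_congr rfl fun l _ => ?_
    rw [Finset.mul_sum, Finset.mul_sum]
  have h5 : ∑ s ∈ W, ∏ p ∈ s, 1 / (p : ℝ) = 1 + ∑ s ∈ ((PS y₁ z B).powerset.filter
        (fun s : Finset ℕ => s.Nonempty ∧ ∏ p ∈ s, (p : ℝ) ≤ x)), ∏ p ∈ s, 1 / (p : ℝ) := by
    have he : W = insert ∅ ((PS y₁ z B).powerset.filter
        (fun s : Finset ℕ => s.Nonempty ∧ ∏ p ∈ s, (p : ℝ) ≤ x)) := by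
      ext s
      rw [hW, Finset.mem_insert, Finset.mem_filter, Finset.mem_filter, Finset.mem_powerset]
      constructor
      · rintro ⟨a1, a2⟩
        rcases Finset.eq_empty_or_nonempty s with h | h
        · exact Or.inl h
        · exact Or.inr ⟨a1, h, a2⟩
      · rintro (rfl | ⟨a1, _, a2⟩)
        · simpa using hx
        · exact ⟨a1, a2⟩
    rw [he, Finset.sum_insert (by simp)]
    simp
  have h6 : 0 ≤ ∑ s ∈ W, ∏ p ∈ s, 1 / (p : ℝ) := Finset.sum_nonneg fun s _ => by positivity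
  have h7 : ∑ a ∈ A, (a : ℝ)⁻¹ ≤ ∏ p ∈ P with p.Prime, (1 - (p : ℝ)⁻¹)⁻¹ :=
    euler_le P A fun a ha => (Finset.mem_filter.1 ha).2
  have h8 : 0 ≤ ∑ a ∈ A, (a : ℝ)⁻¹ := Finset.sum_nonneg fun s _ => by positivity
  rw [h1, h2]
  refine h3.trans ?_
  rw [h4, h5, mul_assoc]
  rw [h5] at h6
  refine mul_le_mul h7 (mul_le_mul_of_nonneg_right (sum_sq_le N) h6) ?_ (h8.trans h7)
  exact mul_nonneg (Finset.sum_nonneg fun s _ => by positivity) h6

theorem fac_le (p : ℕ) (hp : p.Prime) : (1 - (p : ℝ)⁻¹)⁻¹ ≤ Real.exp (1 / ((p : ℝ) - 1)) := by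
  have h2 : (2 : ℝ) ≤ p := by exact_mod_cast hp.two_le
  have h : (1 - (p : ℝ)⁻¹)⁻¹ = 1 / ((p : ℝ) - 1) + 1 := by
    have : (p : ℝ) - 1 ≠ 0 := by linarith
    have : (p : ℝ) ≠ 0 := by linarith
    field_simp
    ring
  rw [h]
  exact Real.add_one_le_exp _

theorem fac_pos (p : ℕ) (hp : p.Prime) : 0 < (1 - (p : ℝ)⁻¹)⁻¹ := by
  have h2 : (1 : ℝ) < p := by exact_mod_cast hp.one_lt
  have := inv_lt_one_of_one_lt₀ h2
  exact inv_pos.2 (by linarith)

theorem sum_tel (N : ℕ) : ∑ p ∈ (Finset.Icc 1 N).filter Nat.Prime, (1 / ((p : ℝ) - 1) - 1 / p) ≤ 1 := by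
  have h : ∀ N : ℕ, 1 ≤ N → ∑ n ∈ Finset.Icc 2 N, (1 / ((n : ℝ) - 1) - 1 / n) = 1 - 1 / N := by
    intro N hN
    induction N, hN using Nat.le_induction with
    | base => simp
    | succ n hn ih =>
      rw [Finset.sum_Icc_succ_top (by omega), ih]
      push_cast
      ring
  have hsub : (Finset.Icc 1 N).filter Nat.Prime ⊆ Finset.Icc 2 N := by
    intro p hp
    rw [Finset.mem_filter, Finset.mem_Icc] at hp
    exact Finset.mem_Icc.2 ⟨hp.2.two_le, hp.1.2⟩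
  have h2 : ∑ p ∈ (Finset.Icc 1 N).filter Nat.Prime, (1 / ((p : ℝ) - 1) - 1 / p) ≤
      ∑ n ∈ Finset.Icc 2 N, (1 / ((n : ℝ) - 1) - 1 / n) := by
    refine Finset.sum_le_sum_of_subset_of_nonneg hsub fun n hn _ => ?_
    rw [Finset.mem_Icc] at hn
    have : (2 : ℝ) ≤ n := by exact_mod_cast hn.1
    rw [div_sub_div _ _ (by linarith) (by linarith)]
    apply div_nonneg (by linarith)
    apply mul_nonneg <;> linarith
  rcases Nat.eq_zero_or_pos N with rfl | hN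
  · simp
  · rw [h N hN] at h2
    have : (0 : ℝ) ≤ 1 / N := by positivity
    linarith

/-- the product over the bad primes -/
theorem bad_prod (C : ℝ) (hC : ∀ N : ℕ, 3 ≤ N →
    |∑ p ∈ (Finset.Icc 1 N).filter Nat.Prime, (1 : ℝ) / p - Real.log (Real.log N)| ≤ C)
    (y₁ : ℝ) (hy : 3 ≤ y₁) (B : Finset ℕ) (hB : 2 * (B.card : ℝ) ≤ y₁) :
    ∏ p ∈ ((Finset.Icc 1 ⌊y₁⌋₊) ∪ B.filter (fun p : ℕ => y₁ < p)) with p.Prime,
      (1 - (p : ℝ)⁻¹)⁻¹ ≤ Real.exp (C + 2) * Real.log y₁ := by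
  set N := ⌊y₁⌋₊ with hN
  have hN3 : 3 ≤ N := Nat.le_floor (by exact_mod_cast hy)
  have hNy : (N : ℝ) ≤ y₁ := Nat.floor_le (by linarith)
  have hN3' : (3 : ℝ) ≤ N := by exact_mod_cast hN3
  rw [Finset.filter_union, Finset.prod_union (by
    rw [Finset.disjoint_left]
    intro p hp hp'
    rw [Finset.mem_filter, Finset.mem_Icc] at hp
    rw [Finset.mem_filter, Finset.mem_filter] at hp'
    have : (p : ℝ) ≤ N := by exact_mod_cast hp.1.2
    linarith [hp'.1.2])]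
  have hlogN : 0 < Real.log N := Real.log_pos (by linarith)
  have h1 : ∏ p ∈ Finset.Icc 1 N with p.Prime, (1 - (p : ℝ)⁻¹)⁻¹ ≤ Real.exp (C + 1) * Real.log y₁ := by
    calc ∏ p ∈ Finset.Icc 1 N with p.Prime, (1 - (p : ℝ)⁻¹)⁻¹
        ≤ ∏ p ∈ Finset.Icc 1 N with p.Prime, Real.exp (1 / ((p : ℝ) - 1)) := by
          refine Finset.prod_le_prod (fun p hp => (fac_pos p (Finset.mem_filter.1 hp).2).le)
            fun p hp => fac_le p (Finset.mem_filter.1 hp).2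
      _ = Real.exp (∑ p ∈ (Finset.Icc 1 N).filter Nat.Prime, (1 / ((p : ℝ) - 1) - 1 / p) +
            ∑ p ∈ (Finset.Icc 1 N).filter Nat.Prime, (1 : ℝ) / p) := by
          rw [← Real.exp_sum, ← Finset.sum_add_distrib]
          congr 1
          refine Finset.sum_congr rfl fun p _ => by ring
      _ ≤ Real.exp (1 + (C + Real.log (Real.log N))) := by
          refine Real.exp_le_exp.2 (add_le_add (sum_tel N) ?_)
          linarith [(abs_le.1 (hC N hN3)).2]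
      _ = Real.exp (C + 1) * Real.log N := by
          rw [show 1 + (C + Real.log (Real.log N)) = (C + 1) + Real.log (Real.log N) by ring,
            Real.exp_add, Real.exp_log hlogN]
      _ ≤ _ := mul_le_mul_of_nonneg_left (Real.log_le_log (by linarith) hNy) (Real.exp_pos _).le
  have h2 : ∏ p ∈ (B.filter (fun p : ℕ => y₁ < p)) with p.Prime, (1 - (p : ℝ)⁻¹)⁻¹ ≤
      Real.exp 1 := by
    calc ∏ p ∈ (B.filter (fun p : ℕ => y₁ < p)) with p.Prime, (1 - (p : ℝ)⁻¹)⁻¹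
        ≤ ∏ p ∈ (B.filter (fun p : ℕ => y₁ < p)) with p.Prime, Real.exp (2 / y₁) := by
          refine Finset.prod_le_prod (fun p hp => (fac_pos p (Finset.mem_filter.1 hp).2).le)
            fun p hp => (fac_le p (Finset.mem_filter.1 hp).2).trans (Real.exp_le_exp.2 ?_)
          rw [Finset.mem_filter, Finset.mem_filter] at hp
          rw [div_le_div_iff₀ (by linarith) (by linarith)]
          linarith [hp.1.2]
      _ = Real.exp ((((B.filter (fun p : ℕ => y₁ < p)).filter Nat.Prime).card : ℝ) * (2 / y₁)) := by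
          rw [Finset.prod_const, ← Real.exp_nat_mul]
      _ ≤ Real.exp 1 := by
          refine Real.exp_le_exp.2 ?_
          have : ((((B.filter (fun p : ℕ => y₁ < p)).filter Nat.Prime).card : ℕ) : ℝ) ≤ B.card := by
            exact_mod_cast (Finset.card_le_card (Finset.filter_subset _ _)).trans
              (Finset.card_le_card (Finset.filter_subset _ _))
          rw [mul_div_assoc', div_le_one (by linarith)]
          linarith
  have h3 : 0 ≤ ∏ p ∈ (B.filter (fun p : ℕ => y₁ < p)) with p.Prime, (1 - (p : ℝ)⁻¹)⁻¹ :=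
    Finset.prod_nonneg fun p hp => (fac_pos p (Finset.mem_filter.1 hp).2).le
  have hly : 0 < Real.log y₁ := Real.log_pos (by linarith)
  calc _ ≤ (Real.exp (C + 1) * Real.log y₁) * Real.exp 1 :=
        mul_le_mul h1 h2 h3 (by positivity)
    _ = _ := by
      rw [show C + 2 = (C + 1) + 1 by ring, Real.exp_add (C + 1)]; ring

theorem harm (x : ℝ) (hx : 1 ≤ x) : Real.log x ≤ ∑ m ∈ Finset.Icc 1 ⌊x⌋₊, (m : ℝ)⁻¹ := by
  have h := log_le_harmonic_floor x (by linarith)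
  rw [harmonic_eq_sum_Icc] at h
  push_cast at h
  exact h

end LL

open LL in
theorem A_lower : ∃ c₂ : ℝ, 0 < c₂ ∧ ∀ (y₁ z x : ℝ) (B : Finset ℕ), 3 ≤ y₁ → y₁ ≤ x → x ≤ z →
    2 * (B.card : ℝ) ≤ y₁ →
    c₂ * Real.log x / Real.log y₁ - 1 ≤
      ∑ s ∈ ((PS y₁ z B).powerset.filter (fun s : Finset ℕ => s.Nonempty ∧ ∏ p ∈ s, (p : ℝ) ≤ x)),
        ∏ p ∈ s, 1 / (p : ℝ) := by
  obtain ⟨C, hC⟩ := Pool.Agent.Helper256.KM.mertens_inv
  refine ⟨1 / (Real.exp (C + 2) * 2), by positivity, ?_⟩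
  intro y₁ z x B hy hyx hxz hB
  have hm := main_ineq y₁ z x B hxz (by linarith)
    ((Finset.Icc 1 ⌊y₁⌋₊) ∪ B.filter (fun p : ℕ => y₁ < p)) (by
      intro p hp hpP
      rw [Finset.mem_union, Finset.mem_Icc, Finset.mem_filter] at hpP
      push Not at hpP
      have h1 : y₁ < p := by
        by_contra h
        push Not at h
        have := hpP.1 hp.one_lt.le
        have h2 := Nat.le_floor h
        omega
      exact ⟨h1, fun hpB => absurd h1 (not_lt.2 (hpP.2 hpB))⟩)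
  have hb := bad_prod C hC y₁ hy B hB
  have hh := harm x (by linarith)
  have hly : 0 < Real.log y₁ := Real.log_pos (by linarith)
  set R := ∑ s ∈ ((PS y₁ z B).powerset.filter
    (fun s : Finset ℕ => s.Nonempty ∧ ∏ p ∈ s, (p : ℝ) ≤ x)), ∏ p ∈ s, 1 / (p : ℝ) with hR
  have hR0 : 0 ≤ R := Finset.sum_nonneg fun s _ => by positivity
  have h1 : Real.log x ≤ (Real.exp (C + 2) * Real.log y₁) * 2 * (1 + R) := by
    refine hh.trans (hm.trans ?_)
    refine mul_le_mul_of_nonneg_right (mul_le_mul_of_nonneg_right hb (by norm_num)) (by linarith)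
  have h2 : 1 / (Real.exp (C + 2) * 2) * Real.log x / Real.log y₁ ≤ 1 + R := by
    rw [div_le_iff₀ hly, one_div, ← div_eq_inv_mul, div_le_iff₀ (by positivity)]
    linarith
  linarith

end Pool.Agent.H256R2.SC
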