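import Mathlib

set_option autoImplicit false

/-! # Choice of the parameters; counting in arithmetic progressions (helper622) -/

namespace Pool.Agent.H256R2.SC

open Finset Filter

open scoped Classical

/-- the new lower bound function -/
noncomputable def ff (X : ℝ) : ℝ :=
  Real.log X * (Real.log (Real.log X)) ^ 2 * Real.log (Real.log (Real.log (Real.log X))) /
    (Real.log (Real.log (Real.log X))) ^ 2

/-- the statement of the theorem `survivors` -/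
def SurvStmt : Prop := ∃ C : ℝ, 0 < C ∧ ∃ y₀ : ℝ, ∀ y : ℝ, y₀ ≤ y → ∀ L : ℕ, y ≤ L →
    (L : ℝ) ≤ y * (Real.log y) ^ 2 →
    ∃ b : ℕ → ℕ, (∀ p : ℕ, p.Prime → (p : ℝ) ≤ y → 1 ≤ b p ∧ b p < p) ∧
      (((Finset.Icc 1 L).filter (fun k => ∀ p : ℕ, p.Prime → (p : ℝ) ≤ y →
        ¬ k ≡ b p [MOD p])).card : ℝ) ≤
      C * L * (Real.log (Real.log y)) ^ 2 /
        ((Real.log y) ^ 2 * Real.log (Real.log (Real.log y)))

/-- the statement of the theorem `covering` -/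
def CovStmt : Prop := ∃ c : ℝ, 0 < c ∧ ∃ X₀ : ℝ, ∀ X : ℝ, X₀ ≤ X →
    ∀ (B : Finset ℕ), (B.card : ℝ) ≤ 2 * Real.log X →
    ∀ (κ : Type) [Fintype κ] [DecidableEq κ], (Fintype.card κ : ℝ) ≤ c * Real.log X →
    ∀ (res : ℕ → κ → ℤ),
    (∀ p : ℕ, p.Prime → (Real.log X) ^ 2 < p → (p : ℝ) ≤ X ^ (1 / 10 : ℝ) → p ∉ B →
      ∀ k l, k ≠ l → ¬ ((p : ℤ) ∣ res p k - res p l)) →
    ∀ (𝒜 : Finset ℤ) (N Err : ℝ), X ^ (1 / 2 : ℝ) ≤ N → 0 ≤ Err → Err ≤ X ^ (1 / 10 : ℝ) →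
    (∀ q : ℕ, Squarefree q → (q : ℝ) ≤ X ^ (1 / 4 : ℝ) →
      (∀ p ∈ q.primeFactors, (Real.log X) ^ 2 < p ∧ p ∉ B) →
      ∀ r : ℤ, |((𝒜.filter (fun x => (q : ℤ) ∣ x - r)).card : ℝ) - N / q| ≤ Err) →
    ∃ x ∈ 𝒜, ∀ k : κ, ∃ p : ℕ, p.Prime ∧ (Real.log X) ^ 2 < p ∧ (p : ℝ) ≤ X ^ (1 / 10 : ℝ) ∧
      p ∉ B ∧ (p : ℤ) ∣ x - res p k

theorem ev_log {δ : ℝ} (hδ : 0 < δ) : ∀ᶠ t : ℝ in atTop, Real.log t ≤ δ * t := by
  have h := (Real.isLittleO_log_id_atTop.def hδ)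
  filter_upwards [h, eventually_ge_atTop (1 : ℝ)] with t ht h1
  have h2 : 0 ≤ Real.log t := Real.log_nonneg h1
  simp only [id, Real.norm_eq_abs, abs_of_nonneg h2, abs_of_nonneg (by linarith : (0 : ℝ) ≤ t)] at ht
  exact ht

theorem ev_log_sq : ∀ᶠ t : ℝ in atTop, (Real.log t) ^ 2 ≤ t / 2 := by
  have h := (Real.isLittleO_pow_log_id_atTop (n := 2)).def (show (0 : ℝ) < 1 / 2 by norm_num)
  filter_upwards [h, eventually_ge_atTop (1 : ℝ)] with t ht h1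
  simp only [id, Real.norm_eq_abs, abs_of_nonneg (sq_nonneg (Real.log t)),
    abs_of_nonneg (by linarith : (0 : ℝ) ≤ t)] at ht
  linarith

theorem t1 : Tendsto (fun X : ℝ => Real.log X) atTop atTop := Real.tendsto_log_atTop
theorem t2 : Tendsto (fun X : ℝ => Real.log (Real.log X)) atTop atTop :=
  Real.tendsto_log_atTop.comp t1
theorem t3 : Tendsto (fun X : ℝ => Real.log (Real.log (Real.log X))) atTop atTop :=
  Real.tendsto_log_atTop.comp t2
theorem t4 : Tendsto (fun X : ℝ => Real.log (Real.log (Real.log (Real.log X)))) atTop atTop :=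
  Real.tendsto_log_atTop.comp t3

theorem primorial_le_rpow {X : ℝ} (hX : 1 ≤ X) :
    (primorial ⌊Real.log X / 10⌋₊ : ℝ) ≤ X ^ (3 / 20 : ℝ) := by
  have h0 : 0 ≤ Real.log X := Real.log_nonneg hX
  have h1 : (primorial ⌊Real.log X / 10⌋₊ : ℝ) ≤ (4 : ℝ) ^ ⌊Real.log X / 10⌋₊ := by
    exact_mod_cast primorial_le_four_pow _
  refine h1.trans ?_
  rw [← Real.rpow_natCast]
  have h2 : (4 : ℝ) ^ ((⌊Real.log X / 10⌋₊ : ℕ) : ℝ) ≤ (4 : ℝ) ^ (Real.log X / 10) :=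
    Real.rpow_le_rpow_of_exponent_le (by norm_num) (Nat.floor_le (by positivity))
  refine h2.trans ?_
  rw [Real.rpow_def_of_pos (by norm_num : (0 : ℝ) < 4),
    Real.rpow_def_of_pos (by linarith : (0 : ℝ) < X)]
  apply Real.exp_le_exp.2
  have h3 : Real.log 4 ≤ 3 / 2 := by
    have : Real.log 4 = 2 * Real.log 2 := by
      rw [show (4 : ℝ) = 2 ^ (2 : ℕ) by norm_num, Real.log_pow]; norm_num
    have := Real.log_two_lt_d9
    linarith
  nlinarith

/-- the choice of the parameters -/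
theorem params (hs : SurvStmt) (c₁ : ℝ) (hc₁ : 0 < c₁) : ∃ c : ℝ, 0 < c ∧ ∃ X₀ : ℝ, ∀ X : ℝ,
    X₀ ≤ X → 1000 ≤ X ∧ ((⌊c * ff X⌋₊ : ℕ) : ℝ) < (Real.log X) ^ 2 ∧
      Real.log X / 10 ≤ (⌊c * ff X⌋₊ : ℕ) ∧
      (primorial ⌊Real.log X / 10⌋₊ : ℝ) ≤ X ^ (3 / 20 : ℝ) ∧
      ∃ b : ℕ → ℕ, (∀ p : ℕ, p.Prime → (p : ℝ) ≤ Real.log X / 10 → 1 ≤ b p ∧ b p < p) ∧
        (((Finset.Icc 1 ⌊c * ff X⌋₊).filter (fun k => ∀ p : ℕ, p.Prime →
          (p : ℝ) ≤ Real.log X / 10 → ¬ k ≡ b p [MOD p])).card : ℝ) ≤ c₁ * Real.log X := by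
  obtain ⟨C, hC, y₀, hy₀⟩ := hs
  set c : ℝ := c₁ / (8 * C) with hc
  have hcpos : 0 < c := by positivity
  refine ⟨c, hcpos, ?_⟩
  have hsc : 0 < Real.sqrt c := Real.sqrt_pos.2 hcpos
  have key : ∀ᶠ X : ℝ in atTop, 1000 ≤ X ∧ ((⌊c * ff X⌋₊ : ℕ) : ℝ) < (Real.log X) ^ 2 ∧
      Real.log X / 10 ≤ (⌊c * ff X⌋₊ : ℕ) ∧
      (primorial ⌊Real.log X / 10⌋₊ : ℝ) ≤ X ^ (3 / 20 : ℝ) ∧
      ∃ b : ℕ → ℕ, (∀ p : ℕ, p.Prime → (p : ℝ) ≤ Real.log X / 10 → 1 ≤ b p ∧ b p < p) ∧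
        (((Finset.Icc 1 ⌊c * ff X⌋₊).filter (fun k => ∀ p : ℕ, p.Prime →
          (p : ℝ) ≤ Real.log X / 10 → ¬ k ≡ b p [MOD p])).card : ℝ) ≤ c₁ * Real.log X := by
    filter_upwards [eventually_ge_atTop (1000 : ℝ), t1.eventually (eventually_ge_atTop (10 * |y₀|)),
      t1.eventually (eventually_ge_atTop 10),
      t1.eventually ev_log_sq, t2.eventually (eventually_ge_atTop (2 * Real.log 10)),
      t2.eventually (eventually_ge_atTop 10),
      t2.eventually (ev_log hsc), t3.eventually (eventually_ge_atTop (40 * c)),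
      t3.eventually (eventually_ge_atTop 2), t3.eventually (ev_log one_pos),
      t4.eventually (eventually_ge_atTop 2)] with X e0 e1 e1' e2 e3 e3' e4 e5 e5' e6 e7
    set l1 := Real.log X with hl1
    set l2 := Real.log l1 with hl2
    set l3 := Real.log l2 with hl3
    set l4 := Real.log l3 with hl4
    have hff : c * ff X = c * (l1 * l2 ^ 2 * l4 / l3 ^ 2) := rfl
    have hl1p : 0 < l1 := by linarith
    have hl2p : 0 < l2 := by linarith
    have hl3p : 0 < l3 := by linarith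
    have hl4p : 0 < l4 := by linarith
    have hffpos : 0 ≤ c * ff X := by rw [hff]; positivity
    have hlog10 : 0 < Real.log 10 := Real.log_pos (by norm_num)
    have hlog2 : Real.log 2 < 0.7 := by have := Real.log_two_lt_d9; linarith
    -- the logarithms of `y`
    have y1 : Real.log (l1 / 10) = l2 - Real.log 10 := Real.log_div hl1p.ne' (by norm_num)
    have y2 : l2 / 2 ≤ Real.log (l1 / 10) := by rw [y1]; linarith
    have y2' : Real.log (l1 / 10) ≤ l2 := by rw [y1]; linarith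
    have y3 : l3 / 2 ≤ Real.log (Real.log (l1 / 10)) := by
      have h1 : Real.log (l2 / 2) ≤ Real.log (Real.log (l1 / 10)) :=
        Real.log_le_log (by positivity) y2
      rw [Real.log_div hl2p.ne' (by norm_num)] at h1
      change l3 - Real.log 2 ≤ _ at h1
      linarith
    have y3' : Real.log (Real.log (l1 / 10)) ≤ l3 := Real.log_le_log (by linarith) y2'
    have y4 : l4 / 2 ≤ Real.log (Real.log (Real.log (l1 / 10))) := by
      have h1 : Real.log (l3 / 2) ≤ Real.log (Real.log (Real.log (l1 / 10))) :=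
        Real.log_le_log (by positivity) y3
      rw [Real.log_div hl3p.ne' (by norm_num)] at h1
      change l4 - Real.log 2 ≤ _ at h1
      linarith
    -- size of `c * ff X`
    have hge : l1 ≤ c * ff X := by
      rw [hff]
      have h1 : l3 ^ 2 ≤ c * l2 ^ 2 := by
        have h2 : l3 ^ 2 ≤ (Real.sqrt c * l2) ^ 2 := by
          apply pow_le_pow_left₀ hl3p.le e4
        rwa [mul_pow, Real.sq_sqrt hcpos.le] at h2
      rw [show c * (l1 * l2 ^ 2 * l4 / l3 ^ 2) = l1 * (c * l2 ^ 2 * l4 / l3 ^ 2) by ring]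
      have h3 : 1 ≤ c * l2 ^ 2 * l4 / l3 ^ 2 := by
        rw [le_div_iff₀ (by positivity)]
        nlinarith [sq_nonneg l3]
      nlinarith
    have hle : c * ff X ≤ l1 * l2 ^ 2 / 40 := by
      rw [hff]
      have h1 : c * l4 ≤ l3 ^ 2 / 40 := by
        have h2 : c * l4 ≤ c * l3 := by
          apply mul_le_mul_of_nonneg_left _ hcpos.le
          linarith
        nlinarith
      rw [show c * (l1 * l2 ^ 2 * l4 / l3 ^ 2) = (l1 * l2 ^ 2) * ((c * l4) / l3 ^ 2) by ring]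
      have h3 : (c * l4) / l3 ^ 2 ≤ 1 / 40 := by
        rw [div_le_iff₀ (by positivity)]
        linarith
      have h4 : 0 ≤ l1 * l2 ^ 2 := by positivity
      calc (l1 * l2 ^ 2) * ((c * l4) / l3 ^ 2) ≤ (l1 * l2 ^ 2) * (1 / 40) :=
            mul_le_mul_of_nonneg_left h3 h4
        _ = _ := by ring
    have hfl : ((⌊c * ff X⌋₊ : ℕ) : ℝ) ≤ c * ff X := Nat.floor_le hffpos
    have hfl' : c * ff X < (⌊c * ff X⌋₊ : ℕ) + 1 := Nat.lt_floor_add_one _
    have hyL : l1 / 10 ≤ (⌊c * ff X⌋₊ : ℕ) := by linarith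
    refine ⟨e0, ?_, hyL, primorial_le_rpow (by linarith), ?_⟩
    · have h1 : l1 * l2 ^ 2 ≤ l1 * (l1 / 2) := mul_le_mul_of_nonneg_left e2 hl1p.le
      have h2 : 0 < l1 ^ 2 := by positivity
      nlinarith
    · have hLy : ((⌊c * ff X⌋₊ : ℕ) : ℝ) ≤ l1 / 10 * (Real.log (l1 / 10)) ^ 2 := by
        have h1 : (l2 / 2) ^ 2 ≤ (Real.log (l1 / 10)) ^ 2 :=
          pow_le_pow_left₀ (by positivity) y2 2
        have h2 : l1 / 10 * (l2 / 2) ^ 2 ≤ l1 / 10 * (Real.log (l1 / 10)) ^ 2 :=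
          mul_le_mul_of_nonneg_left h1 (by positivity)
        nlinarith
      obtain ⟨b, hb1, hb2⟩ := hy₀ (l1 / 10) (by linarith [le_abs_self y₀]) _ hyL hLy
      refine ⟨b, hb1, hb2.trans ?_⟩
      have p2 : 0 < Real.log (l1 / 10) := by linarith
      have p3 : 0 < Real.log (Real.log (l1 / 10)) := by linarith
      have p4 : 0 < Real.log (Real.log (Real.log (l1 / 10))) := by linarith
      rw [div_le_iff₀ (by positivity)]
      have h1 : (Real.log (Real.log (l1 / 10))) ^ 2 ≤ l3 ^ 2 := pow_le_pow_left₀ p3.le y3' 2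
      have h2 : C * (⌊c * ff X⌋₊ : ℕ) * (Real.log (Real.log (l1 / 10))) ^ 2 ≤
          C * (c * ff X) * l3 ^ 2 := by
        apply mul_le_mul (mul_le_mul_of_nonneg_left hfl hC.le) h1 (by positivity) (by positivity)
      have h3 : C * (c * ff X) * l3 ^ 2 = c₁ * l1 * ((l2 / 2) ^ 2 * (l4 / 2)) := by
        rw [hff, hc]
        field_simp
        ring
      have h4 : (l2 / 2) ^ 2 * (l4 / 2) ≤
          (Real.log (l1 / 10)) ^ 2 * Real.log (Real.log (Real.log (l1 / 10))) :=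
        mul_le_mul (pow_le_pow_left₀ (by positivity) y2 2) y4 (by positivity) (by positivity)
      calc _ ≤ C * (c * ff X) * l3 ^ 2 := h2
        _ = c₁ * l1 * ((l2 / 2) ^ 2 * (l4 / 2)) := h3
        _ ≤ _ := mul_le_mul_of_nonneg_left h4 (by positivity)
  obtain ⟨X₀, hX₀⟩ := eventually_atTop.1 key
  exact ⟨X₀, hX₀⟩

/-- the number of the integers of an interval in a residue class -/
theorem count_ap (A B : ℤ) (hAB : A ≤ B) (q : ℕ) (hq : 1 ≤ q) (r : ℤ) :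
    |(((Finset.Ioc A B).filter (fun x => (q : ℤ) ∣ x - r)).card : ℝ) - ((B : ℝ) - A) / q| ≤ 1 := by
  have hq' : (0 : ℤ) < q := by exact_mod_cast hq
  have h1 := Int.Ioc_filter_modEq_card A B hq' r
  have h2 : (Finset.Ioc A B).filter (fun x => (q : ℤ) ∣ x - r) =
      (Finset.Ioc A B).filter (fun x => x ≡ r [ZMOD (q : ℤ)]) := by
    apply Finset.filter_congr
    intro x _
    rw [Int.modEq_iff_dvd, dvd_sub_comm]
  rw [h2]
  set a : ℚ := ((A : ℚ) - r) / ((q : ℤ) : ℚ) with ha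
  set b : ℚ := ((B : ℚ) - r) / ((q : ℤ) : ℚ) with hb
  have hab : a ≤ b := by
    rw [ha, hb]
    apply div_le_div_of_nonneg_right
    · have : (A : ℚ) ≤ B := by exact_mod_cast hAB
      linarith
    · positivity
  have h3 : ⌊a⌋ ≤ ⌊b⌋ := Int.floor_mono hab
  have h4 : (((Finset.Ioc A B).filter (fun x => x ≡ r [ZMOD (q : ℤ)])).card : ℤ) = ⌊b⌋ - ⌊a⌋ := by
    rw [h1, max_eq_left (by omega)]
  have h5 : (((Finset.Ioc A B).filter (fun x => x ≡ r [ZMOD (q : ℤ)])).card : ℝ) =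
      (⌊b⌋ : ℝ) - (⌊a⌋ : ℝ) := by exact_mod_cast h4
  rw [h5]
  have h6 : ((B : ℝ) - A) / q = (b : ℝ) - (a : ℝ) := by
    rw [ha, hb]
    push_cast
    rw [← sub_div]
    ring
  rw [h6]
  have a1 : ((⌊a⌋ : ℤ) : ℝ) ≤ (a : ℝ) := by exact_mod_cast Int.floor_le a
  have a2 : (a : ℝ) < (⌊a⌋ : ℝ) + 1 := by exact_mod_cast Int.lt_floor_add_one a
  have b1 : ((⌊b⌋ : ℤ) : ℝ) ≤ (b : ℝ) := by exact_mod_cast Int.floor_le b
  have b2 : (b : ℝ) < (⌊b⌋ : ℝ) + 1 := by exact_mod_cast Int.lt_floor_add_one b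
  rw [abs_le]
  constructor <;> linarith

end Pool.Agent.H256R2.SC
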