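import Pool.Agent.H256R2.SC.V1
import Pool.Agent.Helper256.KM.Mertens

set_option autoImplicit false
set_option linter.unusedSectionVars false

/-! # Numerical facts for the covering theorem -/

namespace Pool.Agent.H256R2.SC

open Finset Filter

/-- all largeness conditions -/
theorem ev_facts (C₀ CM : ℝ) : ∃ L₀ : ℝ, ∀ L : ℝ, L₀ ≤ L →
    10 ≤ Real.log L ∧ 20 * CM ≤ Real.log L ∧ 2000 * C₀ * (Real.log L) ^ 2 ≤ L ^ (3 / 10 : ℝ) ∧
      L ≤ Real.exp (L / 100) ∧ 1000 ≤ L ∧ Real.log L ≤ L := by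
  have h1 : ∀ᶠ L : ℝ in atTop, 10 ≤ Real.log L := Real.tendsto_log_atTop.eventually_ge_atTop 10
  have h2 : ∀ᶠ L : ℝ in atTop, 20 * CM ≤ Real.log L :=
    Real.tendsto_log_atTop.eventually_ge_atTop _
  have h3 : ∀ᶠ L : ℝ in atTop, 2000 * C₀ * (Real.log L) ^ 2 ≤ L ^ (3 / 10 : ℝ) := by
    have e1 : (fun L : ℝ => (Real.log L) ^ (2:ℝ)) =o[atTop] (fun L : ℝ => L ^ (3 / 10 : ℝ)) :=
      isLittleO_log_rpow_rpow_atTop 2 (by norm_num)
    have e2 := e1.def (show (0:ℝ) < 1 / (2000 * |C₀| + 1) by positivity)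
    filter_upwards [e2, h1, eventually_ge_atTop (1:ℝ)] with L hL hL1 hL2
    rw [Real.norm_eq_abs, Real.norm_eq_abs, abs_of_nonneg (Real.rpow_nonneg (by linarith) _),
      abs_of_nonneg (Real.rpow_nonneg (by linarith) _)] at hL
    have e3 : (Real.log L) ^ (2:ℝ) = (Real.log L) ^ 2 := by
      rw [← Real.rpow_natCast]; norm_num
    rw [e3] at hL
    have e4 : (2000 * |C₀| + 1) * (Real.log L) ^ 2 ≤ L ^ (3 / 10 : ℝ) := by
      rw [div_mul_eq_mul_div, one_mul, le_div_iff₀ (by positivity)] at hL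
      linarith
    have e5 : 2000 * C₀ * (Real.log L) ^ 2 ≤ (2000 * |C₀| + 1) * (Real.log L) ^ 2 := by
      apply mul_le_mul_of_nonneg_right _ (sq_nonneg _)
      linarith [le_abs_self C₀]
    linarith
  have h4 : ∀ᶠ L : ℝ in atTop, L ≤ Real.exp (L / 100) := by
    have e1 := Real.isLittleO_log_id_atTop.def (show (0:ℝ) < 1 / 100 by norm_num)
    filter_upwards [e1, eventually_ge_atTop (1:ℝ)] with L hL hL1
    rw [Real.norm_eq_abs, abs_of_nonneg (Real.log_nonneg hL1), Real.norm_eq_abs] at hL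
    simp only [id] at hL
    rw [abs_of_nonneg (by linarith)] at hL
    calc L = Real.exp (Real.log L) := (Real.exp_log (by linarith)).symm
      _ ≤ Real.exp (L / 100) := Real.exp_le_exp.mpr (by linarith)
  have h5 : ∀ᶠ L : ℝ in atTop, Real.log L ≤ L := by
    filter_upwards [eventually_ge_atTop (1:ℝ)] with L hL
    linarith [Real.log_le_sub_one_of_pos (show (0:ℝ) < L by linarith)]
  obtain ⟨L₀, h⟩ := Filter.eventually_atTop.mp
    (((((h1.and h2).and h3).and h4).and (eventually_ge_atTop (1000:ℝ))).and h5)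
  exact ⟨L₀, fun L hL => ⟨(h L hL).1.1.1.1.1, (h L hL).1.1.1.1.2, (h L hL).1.1.1.2,
    (h L hL).1.1.2, (h L hL).1.2, (h L hL).2⟩⟩

/-- the number of scales -/
theorem scales (C₀ L : ℝ) (hC : 1 ≤ C₀) (h1 : 10 ≤ Real.log L)
    (h3 : 2000 * C₀ * (Real.log L) ^ 2 ≤ L ^ (3 / 10 : ℝ)) (h5 : 1000 ≤ L) :
    ∃ m : ℕ, (2:ℝ) ^ m * (2 * C₀ * Real.log L) ≤ L / (1000 * Real.log L) ∧
      L / (2000 * Real.log L) ≤ (2:ℝ) ^ m * (2 * C₀ * Real.log L) ∧ Real.log L ≤ m + 1 := by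
  set l := Real.log L with hl
  have hl0 : 0 < l := by linarith
  set W : ℝ := L / (2000 * C₀ * l ^ 2) with hW
  have hden : 0 < 2000 * C₀ * l ^ 2 := by positivity
  have hL0 : 0 < L := by linarith
  have hW1 : L ^ (7 / 10 : ℝ) ≤ W := by
    rw [hW, le_div_iff₀ hden]
    calc L ^ (7 / 10 : ℝ) * (2000 * C₀ * l ^ 2) ≤ L ^ (7 / 10 : ℝ) * L ^ (3 / 10 : ℝ) :=
          mul_le_mul_of_nonneg_left h3 (Real.rpow_nonneg hL0.le _)
      _ = L := by rw [← Real.rpow_add hL0]; norm_num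
  have hW0 : 1 ≤ W := by
    refine le_trans ?_ hW1
    exact Real.one_le_rpow (by linarith) (by norm_num)
  have hfl : ⌊W⌋₊ ≠ 0 := by
    have : 1 ≤ ⌊W⌋₊ := Nat.le_floor (by simpa using hW0)
    omega
  set m : ℕ := Nat.log 2 ⌊W⌋₊ with hm
  have hm1 : (2:ℝ) ^ m ≤ W := by
    have e1 : 2 ^ m ≤ ⌊W⌋₊ := Nat.pow_log_le_self 2 hfl
    calc (2:ℝ) ^ m ≤ (⌊W⌋₊ : ℝ) := by exact_mod_cast e1
      _ ≤ W := Nat.floor_le (by linarith)
  have hm2 : W < (2:ℝ) ^ (m + 1) := by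
    have e1 : ⌊W⌋₊ < 2 ^ (m + 1) := Nat.lt_pow_succ_log_self (by norm_num) _
    have e2 : ⌊W⌋₊ + 1 ≤ 2 ^ (m + 1) := e1
    calc W < (⌊W⌋₊ : ℝ) + 1 := Nat.lt_floor_add_one W
      _ ≤ (2:ℝ) ^ (m + 1) := by exact_mod_cast e2
  have hWl : W * (2 * C₀ * l) = L / (1000 * l) := by
    rw [hW]
    field_simp
    ring
  refine ⟨m, ?_, ?_, ?_⟩
  · calc (2:ℝ) ^ m * (2 * C₀ * l) ≤ W * (2 * C₀ * l) :=
        mul_le_mul_of_nonneg_right hm1 (by positivity)
      _ = L / (1000 * l) := hWl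
  · have e1 : W * (2 * C₀ * l) ≤ (2:ℝ) ^ (m + 1) * (2 * C₀ * l) :=
      mul_le_mul_of_nonneg_right hm2.le (by positivity)
    rw [hWl, pow_succ] at e1
    have e2 : L / (1000 * l) = 2 * (L / (2000 * l)) := by
      field_simp
      ring
    nlinarith
  · by_contra hc
    push Not at hc
    have e1 : (2:ℝ) ^ (m + 1) ≤ L ^ (7 / 10 : ℝ) := by
      have e2 : (2:ℝ) ^ (m + 1) = Real.exp (Real.log 2 * (m + 1)) := by
        rw [← Real.rpow_natCast, Real.rpow_def_of_pos (by norm_num)]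
        push_cast
        rfl
      rw [e2, Real.rpow_def_of_pos hL0]
      apply Real.exp_le_exp.mpr
      have e3 := Real.log_two_lt_d9
      have e4 : (0:ℝ) ≤ (m:ℝ) + 1 := by positivity
      have e5 : Real.log 2 * (m + 1) ≤ 0.7 * (m + 1) := by nlinarith
      rw [← hl]
      nlinarith
    linarith

end Pool.Agent.H256R2.SC
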